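import Mathlib

set_option autoImplicit false

namespace Pool.Agent.SGap

open Filter Topology

/-- The function `log x / log log x`. -/
noncomputable def ell (x : ℝ) : ℝ := Real.log x / Real.log (Real.log x)

theorem log_nat_tendsto : Tendsto (fun n : ℕ => Real.log (n : ℝ)) atTop atTop :=
  Real.tendsto_log_atTop.comp tendsto_natCast_atTop_atTop

theorem loglog_nat_tendsto : Tendsto (fun n : ℕ => Real.log (Real.log (n : ℝ))) atTop atTop :=
  Real.tendsto_log_atTop.comp log_nat_tendsto

theorem log_div_id : Tendsto (fun x : ℝ => Real.log x / x) atTop (𝓝 0) := by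
  have := Real.isLittleO_log_id_atTop
  exact this.tendsto_div_nhds_zero

theorem ell_tendsto : Tendsto (fun n : ℕ => ell (n : ℝ)) atTop atTop := by
  have h1 : Tendsto (fun x : ℝ => Real.log x / x) atTop (𝓝[>] 0) := by
    rw [tendsto_nhdsWithin_iff]
    refine ⟨log_div_id, ?_⟩
    filter_upwards [eventually_gt_atTop 1] with x hx
    exact div_pos (Real.log_pos hx) (by linarith)
  have h2 : Tendsto (fun x : ℝ => (Real.log x / x)⁻¹) atTop atTop :=
    h1.inv_tendsto_nhdsGT_zero
  refine (h2.comp log_nat_tendsto).congr fun n => ?_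
  simp only [Function.comp, ell, inv_div]

theorem ell_div_log : Tendsto (fun n : ℕ => ell (n : ℝ) / Real.log n) atTop (𝓝 0) := by
  have h1 : Tendsto (fun n : ℕ => (Real.log (Real.log (n : ℝ)))⁻¹) atTop (𝓝 0) :=
    loglog_nat_tendsto.inv_tendsto_atTop
  refine h1.congr' ?_
  filter_upwards [log_nat_tendsto.eventually (eventually_gt_atTop 0)] with n hn
  unfold ell
  field_simp

theorem ell_ent (c : ℝ) (hc : 0 < c) :
    Tendsto (fun n : ℕ => (c * ell n) * (Real.log (c * ell n) - 1) / Real.log n) atTop (𝓝 c) := by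
  have h1 : Tendsto (fun n : ℕ => (Real.log (Real.log (n : ℝ)))⁻¹) atTop (𝓝 0) :=
    loglog_nat_tendsto.inv_tendsto_atTop
  have h2 : Tendsto (fun n : ℕ => Real.log (Real.log (Real.log (n : ℝ))) /
      Real.log (Real.log (n : ℝ))) atTop (𝓝 0) := log_div_id.comp loglog_nat_tendsto
  have h3 : Tendsto (fun n : ℕ => c * (1 + (Real.log c - 1) * (Real.log (Real.log (n : ℝ)))⁻¹ -
      Real.log (Real.log (Real.log (n : ℝ))) / Real.log (Real.log (n : ℝ)))) atTop
      (𝓝 (c * (1 + (Real.log c - 1) * 0 - 0))) :=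
    ((tendsto_const_nhds.add (tendsto_const_nhds.mul h1)).sub h2).const_mul c
  rw [mul_zero, add_zero, sub_zero, mul_one] at h3
  refine h3.congr' ?_
  filter_upwards [log_nat_tendsto.eventually (eventually_gt_atTop 0),
    loglog_nat_tendsto.eventually (eventually_gt_atTop 0)] with n hn hn2
  have e : Real.log (c * ell n) = Real.log c + Real.log (Real.log n) -
      Real.log (Real.log (Real.log n)) := by
    unfold ell
    rw [Real.log_mul hc.ne' (div_ne_zero hn.ne' hn2.ne'), Real.log_div hn.ne' hn2.ne']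
    ring
  rw [e]
  unfold ell
  field_simp
  ring

theorem ell_mono {x y : ℝ} (hx : Real.exp 1 ≤ Real.log x) (hxy : x ≤ y) (hx0 : 0 < x) :
    ell x ≤ ell y := by
  have hxy' : Real.log x ≤ Real.log y := Real.log_le_log hx0 hxy
  have h1 := Real.log_div_self_antitoneOn (show Real.log x ∈ {x | Real.exp 1 ≤ x} from hx)
    (show Real.log y ∈ {x | Real.exp 1 ≤ x} from le_trans hx hxy') hxy'
  simp only at h1
  have he : (1 : ℝ) < Real.exp 1 := by
    have := Real.add_one_lt_exp (x := 1) (by norm_num)
    linarith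
  have hly : 1 < Real.log y := lt_of_lt_of_le he (le_trans hx hxy')
  have hpos : 0 < Real.log (Real.log y) / Real.log y :=
    div_pos (Real.log_pos hly) (by linarith)
  have := inv_anti₀ hpos h1
  unfold ell
  rwa [inv_div, inv_div] at this

/-- `K ! ≥ (K / e) ^ K` in logarithmic form. -/
theorem log_factorial_ge (K : ℕ) (hK : 0 < K) :
    (K : ℝ) * (Real.log K - 1) ≤ Real.log (K.factorial : ℝ) := by
  have h1 : (K : ℝ) ^ K / (K.factorial : ℝ) ≤ Real.exp K := by
    have := Real.pow_div_factorial_le_exp (K : ℝ) (Nat.cast_nonneg _) K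
    exact this
  have hK' : (0 : ℝ) < K := by exact_mod_cast hK
  have hf : (0 : ℝ) < (K.factorial : ℝ) := by exact_mod_cast K.factorial_pos
  have h2 : Real.log ((K : ℝ) ^ K / (K.factorial : ℝ)) ≤ K := by
    have := Real.log_le_log (by positivity) h1
    rwa [Real.log_exp] at this
  rw [Real.log_div (by positivity) hf.ne', Real.log_pow] at h2
  linarith

theorem ent_mono {x y : ℝ} (hx : Real.exp 1 ≤ x) (hxy : x ≤ y) :
    x * (Real.log x - 1) ≤ y * (Real.log y - 1) := by
  have hx0 : 0 < x := lt_of_lt_of_le (Real.exp_pos 1) hx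
  have h1 : 1 ≤ Real.log x := by
    have := Real.log_le_log (Real.exp_pos 1) hx
    rwa [Real.log_exp] at this
  have h2 : Real.log x ≤ Real.log y := Real.log_le_log hx0 hxy
  exact mul_le_mul hxy (by linarith) (by linarith) (by linarith)

end Pool.Agent.SGap
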