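import Mathlib

set_option autoImplicit false

namespace Pool.Agent.SGap

open Finset

/-- `n` is divisible by no square `p ^ 2` with `p` in the finite set `P`. -/
def Good (P : Finset ℕ) (n : ℕ) : Prop := ∀ p ∈ P, ¬ p ^ 2 ∣ n

instance (P : Finset ℕ) : DecidablePred (Good P) := fun n => by
  unfold Good; infer_instance

/-- The product of the squares of the elements of `P`. -/
def QP (P : Finset ℕ) : ℕ := ∏ p ∈ P, p ^ 2

/-- The number of good residues. -/
def cP (P : Finset ℕ) : ℕ := ∏ p ∈ P, (p ^ 2 - 1)

theorem QP_pos (P : Finset ℕ) (hP : ∀ p ∈ P, p.Prime) : 0 < QP P :=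
  Finset.prod_pos fun p hp => pow_pos (hP p hp).pos 2

theorem good_add_mul (P : Finset ℕ) (n k : ℕ) : Good P (n + QP P * k) ↔ Good P n := by
  unfold Good
  refine forall_congr' fun p => forall_congr' fun hp => not_congr ?_
  have : p ^ 2 ∣ QP P * k := dvd_mul_of_dvd_left (Finset.dvd_prod_of_mem _ hp) k
  exact (Nat.dvd_add_iff_left this).symm

theorem good_periodic (P : Finset ℕ) : Function.Periodic (Good P) (QP P) := by
  intro n
  have := good_add_mul P n 1
  rw [mul_one] at this
  exact propext this

theorem count_zero (P : Finset ℕ) (hP : ∀ p ∈ P, p.Prime) :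
    ((range (QP P)).filter (Good P)).card = cP P := by
  classical
  induction P using Finset.induction_on with
  | empty =>
      simp [QP, cP, Good, Finset.filter_true_of_mem]
  | @insert q P hq ih =>
      have hP' : ∀ p ∈ P, p.Prime := fun p hp => hP p (Finset.mem_insert_of_mem hp)
      have hqp : q.Prime := hP q (Finset.mem_insert_self q P)
      specialize ih hP'
      have hQ : QP (insert q P) = q ^ 2 * QP P := by
        unfold QP; rw [Finset.prod_insert hq]
      have hc : cP (insert q P) = (q ^ 2 - 1) * cP P := by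
        unfold cP; rw [Finset.prod_insert hq]
      have hcop : ∀ p ∈ P, Nat.Coprime (p ^ 2) (q ^ 2) := by
        intro p hp
        refine Nat.Coprime.pow 2 2 ((Nat.coprime_primes (hP' p hp) hqp).2 ?_)
        rintro rfl; exact hq hp
      -- the good numbers for `P` below `q^2 * QP P`
      have h1 : ∀ m : ℕ, ((range (m * QP P)).filter (Good P)).card = m * cP P := by
        intro m
        induction m with
        | zero => simp
        | succ m ihm =>
            have hsplit : range ((m + 1) * QP P) = range (m * QP P) ∪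
                Ico (m * QP P) ((m + 1) * QP P) := by
              rw [Finset.range_eq_Ico, Finset.range_eq_Ico]
              exact (Finset.Ico_union_Ico_eq_Ico (Nat.zero_le _) (by nlinarith)).symm
            have hdisj : Disjoint (range (m * QP P)) (Ico (m * QP P) ((m + 1) * QP P)) := by
              rw [Finset.range_eq_Ico]
              exact Finset.Ico_disjoint_Ico_consecutive _ _ _
            rw [hsplit, Finset.filter_union, Finset.card_union_of_disjoint
              (Finset.disjoint_filter_filter hdisj), ihm]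
            have := Nat.filter_Ico_card_eq_of_periodic (m * QP P) (QP P) (Good P)
              (good_periodic P)
            have e : m * QP P + QP P = (m + 1) * QP P := by ring
            rw [e] at this
            rw [this]
            have h0 : (QP P).count (Good P) = cP P := by
              rw [Nat.count_eq_card_filter_range, ih]
            rw [h0]; ring
      have h2 : (range (q ^ 2 * QP P)).filter (Good (insert q P)) =
          ((range (q ^ 2 * QP P)).filter (Good P)) \
            (((range (QP P)).filter (Good P)).image (fun b => q ^ 2 * b)) := by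
        ext n
        simp only [Finset.mem_filter, Finset.mem_range, Finset.mem_sdiff, Finset.mem_image,
          not_exists, not_and, and_imp]
        constructor
        · rintro ⟨hn, hg⟩
          refine ⟨⟨hn, fun p hp => hg p (Finset.mem_insert_of_mem hp)⟩, ?_⟩
          intro b _ _ hb
          exact hg q (Finset.mem_insert_self q P) ⟨b, hb.symm⟩
        · rintro ⟨⟨hn, hg⟩, hnot⟩
          refine ⟨hn, ?_⟩
          intro p hp
          rcases Finset.mem_insert.1 hp with rfl | hp
          · rintro ⟨b, rfl⟩
            refine hnot b ?_ ?_ rfl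
            · exact lt_of_mul_lt_mul_left hn (Nat.zero_le _)
            · intro r hr hrb
              exact hg r hr (dvd_mul_of_dvd_right hrb _)
          · exact hg p hp
      have h3 : (((range (QP P)).filter (Good P)).image (fun b => q ^ 2 * b)) ⊆
          (range (q ^ 2 * QP P)).filter (Good P) := by
        intro n hn
        rw [Finset.mem_image] at hn
        obtain ⟨b, hb, rfl⟩ := hn
        rw [Finset.mem_filter, Finset.mem_range] at hb ⊢
        refine ⟨Nat.mul_lt_mul_of_pos_left hb.1 (pow_pos hqp.pos 2), ?_⟩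
        intro p hp hdvd
        exact hb.2 p hp ((hcop p hp).dvd_of_dvd_mul_left hdvd)
      rw [hQ, hc, h2, Finset.card_sdiff_of_subset h3, h1 (q ^ 2),
        Finset.card_image_of_injective _ (fun a b hab => Nat.eq_of_mul_eq_mul_left
          (pow_pos hqp.pos 2) hab), ih]
      have : 1 ≤ q ^ 2 := Nat.one_le_pow _ _ hqp.pos
      rw [Nat.sub_mul, one_mul]

theorem count_period (P : Finset ℕ) (hP : ∀ p ∈ P, p.Prime) (N : ℕ) :
    ((Ico N (N + QP P)).filter (Good P)).card = cP P := by
  rw [Nat.filter_Ico_card_eq_of_periodic N (QP P) (Good P) (good_periodic P),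
    Nat.count_eq_card_filter_range, count_zero P hP]

/-- Number of good elements in a window of length `h` after `N`, in terms of full periods. -/
theorem count_mul (P : Finset ℕ) (hP : ∀ p ∈ P, p.Prime) (N m : ℕ) :
    ((Ico N (N + m * QP P)).filter (Good P)).card = m * cP P := by
  induction m with
  | zero => simp
  | succ m ih =>
      have hsplit : Ico N (N + (m + 1) * QP P) = Ico N (N + m * QP P) ∪
          Ico (N + m * QP P) (N + (m + 1) * QP P) :=
        (Finset.Ico_union_Ico_eq_Ico (by omega) (by nlinarith)).symm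
      have hdisj : Disjoint (Ico N (N + m * QP P)) (Ico (N + m * QP P) (N + (m + 1) * QP P)) :=
        Finset.Ico_disjoint_Ico_consecutive _ _ _
      rw [hsplit, Finset.filter_union, Finset.card_union_of_disjoint
        (Finset.disjoint_filter_filter hdisj), ih]
      have := count_period P hP (N + m * QP P)
      have e : N + m * QP P + QP P = N + (m + 1) * QP P := by ring
      rw [e] at this
      rw [this]; ring

/-- The survivors in the window `N + 1, ..., N + h`. -/
def surv (P : Finset ℕ) (N h : ℕ) : Finset ℕ := (Icc 1 h).filter fun a => Good P (N + a)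

theorem surv_card (P : Finset ℕ) (N h : ℕ) :
    (surv P N h).card = ((Ico (N + 1) (N + 1 + h)).filter (Good P)).card := by
  classical
  have : (Ico (N + 1) (N + 1 + h)).filter (Good P) = (surv P N h).image (fun a => N + a) := by
    ext n
    simp only [surv, Finset.mem_filter, Finset.mem_Ico, Finset.mem_image, Finset.mem_Icc]
    constructor
    · rintro ⟨⟨h1, h2⟩, h3⟩
      refine ⟨n - N, ⟨⟨by omega, by omega⟩, ?_⟩, by omega⟩
      have : N + (n - N) = n := by omega
      rw [this]; exact h3
    · rintro ⟨a, ⟨⟨h1, h2⟩, h3⟩, rfl⟩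
      exact ⟨⟨by omega, by omega⟩, h3⟩
  rw [this, Finset.card_image_of_injective _ (fun a b hab => by simpa using hab)]

theorem surv_bounds (P : Finset ℕ) (hP : ∀ p ∈ P, p.Prime) (N h : ℕ) :
    (h / QP P) * cP P ≤ (surv P N h).card ∧ (surv P N h).card ≤ (h / QP P + 1) * cP P := by
  rw [surv_card]
  have hQ := QP_pos P hP
  constructor
  · rw [← count_mul P hP (N + 1) (h / QP P)]
    refine Finset.card_le_card (Finset.filter_subset_filter _ ?_)
    refine Finset.Ico_subset_Ico le_rfl ?_
    have := Nat.div_mul_le_self h (QP P)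
    omega
  · rw [← count_mul P hP (N + 1) (h / QP P + 1)]
    refine Finset.card_le_card (Finset.filter_subset_filter _ ?_)
    refine Finset.Ico_subset_Ico le_rfl ?_
    have := Nat.lt_div_mul_add hQ (a := h)
    nlinarith

/-- The Euler factor of the density. -/
noncomputable def dens (P : Finset ℕ) : ℝ := ∏ p ∈ P, (1 - ((p : ℝ) ^ 2)⁻¹)

theorem cP_eq (P : Finset ℕ) (hP : ∀ p ∈ P, p.Prime) : (cP P : ℝ) = QP P * dens P := by
  unfold cP QP dens
  push_cast
  rw [← Finset.prod_mul_distrib]
  refine Finset.prod_congr rfl fun p hp => ?_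
  have h1 : 1 ≤ p ^ 2 := Nat.one_le_pow _ _ (hP p hp).pos
  have h0 : (p : ℝ) ≠ 0 := by exact_mod_cast (hP p hp).ne_zero
  rw [Nat.cast_sub h1]
  push_cast
  field_simp

theorem dens_nonneg (P : Finset ℕ) (hP : ∀ p ∈ P, p.Prime) : 0 ≤ dens P := by
  unfold dens
  refine Finset.prod_nonneg fun p hp => ?_
  have h1 : (1 : ℝ) ≤ (p : ℝ) ^ 2 := by
    have : (1 : ℝ) ≤ p := by exact_mod_cast (hP p hp).one_le
    nlinarith
  have : ((p : ℝ) ^ 2)⁻¹ ≤ 1 := inv_le_one_of_one_le₀ h1
  linarith

theorem dens_le_one (P : Finset ℕ) (hP : ∀ p ∈ P, p.Prime) : dens P ≤ 1 := by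
  unfold dens
  refine Finset.prod_le_one (fun p hp => ?_) (fun p hp => ?_)
  · have h1 : (1 : ℝ) ≤ (p : ℝ) ^ 2 := by
      have : (1 : ℝ) ≤ p := by exact_mod_cast (hP p hp).one_le
      nlinarith
    have : ((p : ℝ) ^ 2)⁻¹ ≤ 1 := inv_le_one_of_one_le₀ h1
    linarith
  · have : (0:ℝ) ≤ ((p : ℝ) ^ 2)⁻¹ := by positivity
    linarith

/-- Window count in real form. -/
theorem surv_real (P : Finset ℕ) (hP : ∀ p ∈ P, p.Prime) (N h : ℕ) :
    dens P * h - QP P ≤ ((surv P N h).card : ℝ) ∧
      ((surv P N h).card : ℝ) ≤ dens P * h + QP P := by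
  obtain ⟨h1, h2⟩ := surv_bounds P hP N h
  have hQ : (0 : ℝ) < QP P := by exact_mod_cast QP_pos P hP
  have hd0 := dens_nonneg P hP
  have hd1 := dens_le_one P hP
  have h1' : ((h / QP P : ℕ) : ℝ) * cP P ≤ ((surv P N h).card : ℝ) := by exact_mod_cast h1
  have h2' : ((surv P N h).card : ℝ) ≤ (((h / QP P : ℕ) : ℝ) + 1) * cP P := by exact_mod_cast h2
  rw [cP_eq P hP] at h1' h2'
  have h3 : (h : ℝ) < ((h / QP P : ℕ) : ℝ) * QP P + QP P := by
    exact_mod_cast Nat.lt_div_mul_add (QP_pos P hP) (a := h)
  have h4 : ((h / QP P : ℕ) : ℝ) * QP P ≤ (h : ℝ) := by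
    exact_mod_cast Nat.div_mul_le_self h (QP P)
  constructor
  · have e : ((h / QP P : ℕ) : ℝ) * (QP P * dens P) = (((h / QP P : ℕ) : ℝ) * QP P) * dens P := by
      ring
    rw [e] at h1'
    have : ((h : ℝ) - QP P) * dens P ≤ (((h / QP P : ℕ) : ℝ) * QP P) * dens P :=
      mul_le_mul_of_nonneg_right (by linarith) hd0
    nlinarith
  · have e : (((h / QP P : ℕ) : ℝ) + 1) * (QP P * dens P) =
        (((h / QP P : ℕ) : ℝ) * QP P) * dens P + QP P * dens P := by ring
    rw [e] at h2'
    have : (((h / QP P : ℕ) : ℝ) * QP P) * dens P ≤ (h : ℝ) * dens P :=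
      mul_le_mul_of_nonneg_right h4 hd0
    nlinarith

end Pool.Agent.SGap
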