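import Mathlib
import Pool.Agent.SGap.Period

set_option autoImplicit false

namespace Pool.Agent.SGap

open Finset Filter Topology

/-- Partial Euler products converge to `6 / π ^ 2`. -/
theorem dens_tendsto :
    Tendsto (fun n : ℕ => dens (Nat.primesBelow n)) atTop (𝓝 (6 / Real.pi ^ 2)) := by
  have h1 := riemannZeta_eulerProduct (s := 2) (by norm_num)
  rw [riemannZeta_two] at h1
  have h2 : ∀ n : ℕ, ∏ p ∈ Nat.primesBelow n, (1 - (p : ℂ) ^ (-(2 : ℂ)))⁻¹ =
      (((dens (Nat.primesBelow n))⁻¹ : ℝ) : ℂ) := by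
    intro n
    unfold dens
    rw [← Finset.prod_inv_distrib]
    push_cast
    refine Finset.prod_congr rfl fun p _ => ?_
    congr 2
    rw [Complex.cpow_neg]
    norm_cast
  simp_rw [h2] at h1
  have h3 : Tendsto (fun n : ℕ => (dens (Nat.primesBelow n))⁻¹) atTop (𝓝 (Real.pi ^ 2 / 6)) := by
    have := (Complex.continuous_re.tendsto _).comp h1
    have e : ((Real.pi : ℂ) ^ 2 / 6).re = Real.pi ^ 2 / 6 := by
      have : ((Real.pi : ℂ) ^ 2 / 6) = ((Real.pi ^ 2 / 6 : ℝ) : ℂ) := by push_cast; ring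
      rw [this, Complex.ofReal_re]
    rw [e] at this
    refine this.congr fun n => ?_
    simp
  have h4 := h3.inv₀ (by positivity)
  rw [inv_div] at h4
  refine h4.congr fun n => ?_
  rw [inv_inv]

theorem dens_antitone : Antitone (fun n : ℕ => dens (Nat.primesBelow n)) := by
  intro m n hmn
  have hsub : Nat.primesBelow m ⊆ Nat.primesBelow n := by
    intro p hp
    rw [Nat.mem_primesBelow] at hp ⊢
    exact ⟨by omega, hp.2⟩
  have hp : ∀ p ∈ Nat.primesBelow n, p.Prime := fun p hp => (Nat.mem_primesBelow.1 hp).2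
  simp only
  unfold dens
  rw [← Finset.prod_sdiff hsub]
  have h0 : (0 : ℝ) ≤ ∏ p ∈ Nat.primesBelow m, (1 - ((p : ℝ) ^ 2)⁻¹) :=
    dens_nonneg _ (fun p hp' => hp p (hsub hp'))
  have h1 : ∏ p ∈ Nat.primesBelow n \ Nat.primesBelow m, (1 - ((p : ℝ) ^ 2)⁻¹) ≤ 1 :=
    dens_le_one _ (fun p hp' => hp p (Finset.sdiff_subset hp'))
  nlinarith

theorem dens_ge (n : ℕ) : 6 / Real.pi ^ 2 ≤ dens (Nat.primesBelow n) :=
  dens_antitone.le_of_tendsto dens_tendsto n

theorem dens_le_eventually (δ : ℝ) (hδ : 0 < δ) :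
    ∃ n0 : ℕ, ∀ n : ℕ, n0 ≤ n → dens (Nat.primesBelow n) ≤ 6 / Real.pi ^ 2 + δ := by
  have := (dens_tendsto.eventually (eventually_le_nhds (show 6 / Real.pi ^ 2 <
    6 / Real.pi ^ 2 + δ by linarith)))
  exact eventually_atTop.1 this

end Pool.Agent.SGap
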