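import Mathlib
import Pool.Agent.SGap.Euler

set_option autoImplicit false

namespace Pool.Agent.SGap

open Finset

/-- Numbers in a residue class in an interval of length `L`. -/
theorem modEq_card (a L r v : ℕ) (hr : 0 < r) :
    (L : ℝ) / r - 1 ≤ (((Ioc a (a + L)).filter (fun x => x ≡ v [MOD r])).card : ℝ) ∧
      (((Ioc a (a + L)).filter (fun x => x ≡ v [MOD r])).card : ℝ) ≤ (L : ℝ) / r + 1 := by
  have h := Nat.Ioc_filter_modEq_card a (a + L) hr v
  have hr' : (0 : ℚ) < r := by exact_mod_cast hr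
  set c := ((Ioc a (a + L)).filter (fun x => x ≡ v [MOD r])).card with hc
  set A : ℤ := ⌊(((a + L : ℕ) : ℚ) - v) / (r : ℚ)⌋ with hA
  set B : ℤ := ⌊((a : ℚ) - v) / (r : ℚ)⌋ with hB
  have hcq : (c : ℤ) = max (A - B) 0 := h
  have hA1 : (A : ℚ) ≤ (((a + L : ℕ) : ℚ) - v) / (r : ℚ) := Int.floor_le _
  have hA2 : (((a + L : ℕ) : ℚ) - v) / (r : ℚ) < A + 1 := Int.lt_floor_add_one _
  have hB1 : (B : ℚ) ≤ ((a : ℚ) - v) / (r : ℚ) := Int.floor_le _
  have hB2 : ((a : ℚ) - v) / (r : ℚ) < B + 1 := Int.lt_floor_add_one _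
  have e : (((a + L : ℕ) : ℚ) - v) / (r : ℚ) = ((a : ℚ) - v) / (r : ℚ) + (L : ℚ) / r := by
    push_cast; ring
  rw [e] at hA1 hA2
  have hL0 : (0 : ℚ) ≤ (L : ℚ) / r := by positivity
  have h1 : ((A - B : ℤ) : ℚ) ≤ (L : ℚ) / r + 1 := by push_cast; linarith
  have h2 : (L : ℚ) / r - 1 ≤ ((A - B : ℤ) : ℚ) := by push_cast; linarith
  have h3 : ((c : ℤ) : ℚ) ≤ (L : ℚ) / r + 1 := by
    rw [hcq]
    push_cast
    refine max_le (by push_cast at h1; exact h1) (by linarith)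
  have h4 : (L : ℚ) / r - 1 ≤ ((c : ℤ) : ℚ) := by
    rw [hcq]
    push_cast
    refine le_max_of_le_left (by push_cast at h2; exact h2)
  constructor
  · have : (((L : ℚ) / r - 1 : ℚ) : ℝ) ≤ (((c : ℤ) : ℚ) : ℝ) := by exact_mod_cast h4
    push_cast at this
    exact this
  · have : ((((c : ℤ) : ℚ)) : ℝ) ≤ (((L : ℚ) / r + 1 : ℚ) : ℝ) := by exact_mod_cast h3
    push_cast at this
    exact this

/-- Multiples of `r` among `N + 1, ..., N + h`. -/
theorem mult_card (N h r : ℕ) (hr : 0 < r) :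
    (((Icc 1 h).filter (fun a => r ∣ N + a)).card : ℝ) ≤ (h : ℝ) / r + 1 := by
  classical
  refine le_trans ?_ (modEq_card N h r 0 hr).2
  have : ((Icc 1 h).filter (fun a => r ∣ N + a)).card ≤
      ((Ioc N (N + h)).filter (fun x => x ≡ 0 [MOD r])).card := by
    refine Finset.card_le_card_of_injOn (fun a => N + a) ?_ (fun a _ b _ hab => by simpa using hab)
    intro a ha
    simp only [Finset.coe_filter, Finset.mem_Icc, Set.mem_setOf_eq, Finset.mem_Ioc] at ha ⊢
    exact ⟨⟨by omega, by omega⟩, (Nat.modEq_zero_iff_dvd).2 ha.2⟩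
  exact_mod_cast this

/-- No squarefree number among `N + 1, ..., N + h`. -/
def W (h N : ℕ) : Prop := ∀ a ∈ Icc 1 h, ¬ Squarefree (N + a)

theorem W_mono {h h' N : ℕ} (hh : h' ≤ h) (hW : W h N) : W h' N := by
  intro a ha
  refine hW a ?_
  rw [Finset.mem_Icc] at ha ⊢
  exact ⟨ha.1, le_trans ha.2 hh⟩

theorem sum_inv_sq_le (y m : ℕ) (hy : 0 < y) :
    ∑ k ∈ Ioc y m, ((k : ℝ) ^ 2)⁻¹ ≤ 1 / y := by
  have key : ∀ m : ℕ, y ≤ m → ∑ k ∈ Ioc y m, ((k : ℝ) ^ 2)⁻¹ ≤ 1 / y - 1 / m := by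
    intro m hm
    induction m, hm using Nat.le_induction with
    | base => simp
    | succ m hm ih =>
        rw [Finset.sum_Ioc_succ_top (by omega)]
        have hm0 : (0 : ℝ) < m := by exact_mod_cast (by omega : 0 < m)
        have : (((m + 1 : ℕ) : ℝ) ^ 2)⁻¹ ≤ 1 / (m : ℝ) - 1 / ((m + 1 : ℕ) : ℝ) := by
          push_cast
          have h1 : 1 / (m : ℝ) - 1 / ((m : ℝ) + 1) = 1 / (m * (m + 1)) := by field_simp; ring
          rw [h1, ← one_div]
          refine one_div_le_one_div_of_le (by positivity) ?_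
          nlinarith
        linarith
  rcases le_total y m with h | h
  · have := key m h
    have h0 : (0 : ℝ) ≤ 1 / m := by positivity
    linarith
  · rw [Finset.Ioc_eq_empty (by omega)]
    simp

/-- Many window positions are killed by large, hence distinct, primes. -/
theorem many_primes (δ : ℝ) (hδ : 0 < δ) : ∃ h0 : ℕ, ∀ h : ℕ, h0 ≤ h → ∀ N : ℕ, W h N →
    ∃ A ⊆ Icc 1 h, ∃ p : ℕ → ℕ, (6 / Real.pi ^ 2 - δ) * h ≤ (A.card : ℝ) ∧
      ∀ a ∈ A, (p a).Prime ∧ h < (p a) ^ 2 ∧ (p a) ^ 2 ∣ N + a := by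
  classical
  obtain ⟨y, hy⟩ := exists_nat_gt (3 / δ)
  have hy0 : (0 : ℝ) < y := lt_trans (by positivity) hy
  have hy0' : 0 < y := by exact_mod_cast hy0
  set P := Nat.primesBelow (y + 1) with hPdef
  have hP : ∀ p ∈ P, p.Prime := fun p hp => (Nat.mem_primesBelow.1 hp).2
  set Q := QP P with hQdef
  obtain ⟨h1, hh1⟩ := exists_nat_gt (3 * (Q : ℝ) / δ)
  obtain ⟨h2, hh2⟩ := exists_nat_gt ((3 / δ) ^ 2)
  refine ⟨max h1 h2 + 1, ?_⟩
  intro h hh N hW
  have hhpos : (0 : ℝ) < h := by exact_mod_cast (by omega : 0 < h)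
  have hQh : (Q : ℝ) ≤ δ / 3 * h := by
    have : (h1 : ℝ) ≤ h := by exact_mod_cast (by omega : h1 ≤ h)
    have h3 : 3 * (Q : ℝ) / δ ≤ h := le_trans hh1.le this
    rw [div_le_iff₀ hδ] at h3
    linarith
  have hsq : (Nat.sqrt h : ℝ) ≤ δ / 3 * h := by
    have h3 : (3 / δ) ^ 2 ≤ (h : ℝ) := by
      have : (h2 : ℝ) ≤ h := by exact_mod_cast (by omega : h2 ≤ h)
      exact le_trans hh2.le this
    have h4 : 3 / δ ≤ Real.sqrt h := by
      rw [show (3 / δ) = Real.sqrt ((3 / δ) ^ 2) from (Real.sqrt_sq (by positivity)).symm]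
      exact Real.sqrt_le_sqrt h3
    have h5 : (Nat.sqrt h : ℝ) ≤ Real.sqrt h := Real.nat_sqrt_le_real_sqrt
    have h6 : Real.sqrt h * Real.sqrt h = h := Real.mul_self_sqrt hhpos.le
    have h7 : Real.sqrt h * (3 / δ) ≤ h := by
      calc Real.sqrt h * (3 / δ) ≤ Real.sqrt h * Real.sqrt h :=
            mul_le_mul_of_nonneg_left h4 (Real.sqrt_nonneg _)
        _ = h := h6
    have h8 : Real.sqrt h ≤ δ / 3 * h := by
      have : Real.sqrt h = δ / 3 * (Real.sqrt h * (3 / δ)) := by field_simp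
      rw [this]
      exact mul_le_mul_of_nonneg_left h7 (by positivity)
    linarith
  -- bad positions
  set K := Ioc y (Nat.sqrt h) with hK
  set B : Finset ℕ := K.biUnion (fun k => (Icc 1 h).filter (fun a => k ^ 2 ∣ N + a)) with hB
  have hBcard : (B.card : ℝ) ≤ 2 * (δ / 3) * h := by
    have h3 : (B.card : ℝ) ≤ ∑ k ∈ K, (((h : ℝ)) * ((k : ℝ) ^ 2)⁻¹ + 1) := by
      have h4 : (B.card : ℝ) ≤ ∑ k ∈ K,
          (((Icc 1 h).filter (fun a => k ^ 2 ∣ N + a)).card : ℝ) := by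
        exact_mod_cast Finset.card_biUnion_le
      refine le_trans h4 (Finset.sum_le_sum fun k hk => ?_)
      have hk0 : 0 < k := by
        have := (Finset.mem_Ioc.1 hk).1
        omega
      have := mult_card N h (k ^ 2) (pow_pos hk0 2)
      push_cast at this
      rw [div_eq_mul_inv] at this
      exact this
    rw [Finset.sum_add_distrib, ← Finset.mul_sum] at h3
    have h5 : ∑ k ∈ K, ((k : ℝ) ^ 2)⁻¹ ≤ 1 / y := sum_inv_sq_le y _ hy0'
    have h6 : ∑ _k ∈ K, (1 : ℝ) ≤ Nat.sqrt h := by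
      rw [Finset.sum_const, nsmul_eq_mul, mul_one]
      have : K.card ≤ Nat.sqrt h := by
        rw [hK, Nat.card_Ioc]; omega
      exact_mod_cast this
    have h7 : (1 : ℝ) / y ≤ δ / 3 := by
      rw [div_lt_iff₀ hδ] at hy
      rw [div_le_iff₀ hy0]
      linarith
    have h8 : (h : ℝ) * ∑ k ∈ K, ((k : ℝ) ^ 2)⁻¹ ≤ h * (δ / 3) :=
      mul_le_mul_of_nonneg_left (le_trans h5 h7) hhpos.le
    linarith
  -- choose primes
  have hch : ∀ a ∈ surv P N h, ∃ q : ℕ, q.Prime ∧ q ^ 2 ∣ N + a := by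
    intro a ha
    have ha' : a ∈ Icc 1 h := (Finset.mem_filter.1 ha).1
    have := hW a ha'
    rw [Nat.squarefree_iff_prime_squarefree] at this
    push Not at this
    obtain ⟨q, hq, hqd⟩ := this
    exact ⟨q, hq, by rw [pow_two]; exact hqd⟩
  let p : ℕ → ℕ := fun a => if hx : ∃ q : ℕ, q.Prime ∧ q ^ 2 ∣ N + a then hx.choose else 2
  have hp : ∀ a ∈ surv P N h, (p a).Prime ∧ (p a) ^ 2 ∣ N + a := by
    intro a ha
    have hx := hch a ha
    have : p a = hx.choose := dif_pos hx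
    rw [this]
    exact hx.choose_spec
  refine ⟨surv P N h \ B, ?_, p, ?_, ?_⟩
  · intro a ha
    exact (Finset.mem_filter.1 (Finset.mem_sdiff.1 ha).1).1
  · have h3 : ((surv P N h).card : ℝ) ≤ ((surv P N h \ B).card : ℝ) + (B.card : ℝ) := by
      exact_mod_cast (by
        have := Finset.le_card_sdiff B (surv P N h)
        omega : (surv P N h).card ≤ (surv P N h \ B).card + B.card)
    have h4 := (surv_real P hP N h).1
    have h5 : 6 / Real.pi ^ 2 * h ≤ dens P * h :=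
      mul_le_mul_of_nonneg_right (dens_ge (y + 1)) hhpos.le
    nlinarith
  · intro a ha
    rw [Finset.mem_sdiff] at ha
    obtain ⟨ha, haB⟩ := ha
    obtain ⟨hpa, hpd⟩ := hp a ha
    refine ⟨hpa, ?_, hpd⟩
    by_contra hcon
    push Not at hcon
    apply haB
    rw [hB, Finset.mem_biUnion]
    refine ⟨p a, ?_, ?_⟩
    · rw [hK, Finset.mem_Ioc]
      constructor
      · by_contra hle
        have hmem : p a ∈ P := Nat.mem_primesBelow.2 ⟨by omega, hpa⟩
        exact (Finset.mem_filter.1 ha).2 (p a) hmem hpd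
      · rw [Nat.le_sqrt, ← pow_two]; exact hcon
    · exact Finset.mem_filter.2 ⟨(Finset.mem_filter.1 ha).1, hpd⟩

/-- Distinct positions carry distinct primes. -/
theorem inj_of_large {h N : ℕ} {A : Finset ℕ} {p : ℕ → ℕ} (hA : A ⊆ Icc 1 h)
    (hp : ∀ a ∈ A, h < (p a) ^ 2 ∧ (p a) ^ 2 ∣ N + a) : Set.InjOn p (A : Set ℕ) := by
  have key : ∀ a ∈ A, ∀ b ∈ A, p a = p b → a ≤ b → a = b := by
    intro a ha b hb hab hle
    by_contra hne
    have hlt : a < b := lt_of_le_of_ne hle hne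
    have h1 := (hp a ha).2
    have h2 := (hp b hb).2
    rw [← hab] at h2
    have h3 : (p a) ^ 2 ∣ (N + b) - (N + a) := Nat.dvd_sub h2 h1
    have h4 : (N + b) - (N + a) = b - a := by omega
    rw [h4] at h3
    have h5 := Nat.le_of_dvd (by omega) h3
    have h6 := (hp a ha).1
    have hb' := (Finset.mem_Icc.1 (hA hb)).2
    have ha' := (Finset.mem_Icc.1 (hA ha)).1
    omega
  intro a ha b hb hab
  rcases le_total a b with hle | hle
  · exact key a ha b hb hab hle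
  · exact (key b hb a ha hab.symm hle).symm

end Pool.Agent.SGap
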