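import Mathlib
import Pool.Agent.SGap.Count

set_option autoImplicit false

namespace Pool.Agent.SGap

open Finset

theorem factorial_le_prod (s : Finset ℕ) (hs : ∀ x ∈ s, 0 < x) : s.card.factorial ≤ ∏ x ∈ s, x := by
  classical
  induction hn : s.card generalizing s with
  | zero =>
      rw [Finset.card_eq_zero] at hn
      subst hn
      simp
  | succ n ih =>
      have hne : s.Nonempty := by
        rw [← Finset.card_pos]; omega
      set m := s.max' hne with hm
      have hmem : m ∈ s := Finset.max'_mem s hne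
      have hmn : n + 1 ≤ m := by
        have hsub : s ⊆ Icc 1 m := by
          intro x hx
          rw [Finset.mem_Icc]
          exact ⟨hs x hx, Finset.le_max' s x hx⟩
        have := Finset.card_le_card hsub
        rw [Nat.card_Icc] at this
        omega
      have h1 := ih (s.erase m) (fun x hx => hs x (Finset.mem_of_mem_erase hx))
        (by rw [Finset.card_erase_of_mem hmem, hn]; rfl)
      rw [← Finset.mul_prod_erase s (fun x => x) hmem, Nat.factorial_succ]
      exact Nat.mul_le_mul hmn h1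

theorem factorial_le_prod_inj (A : Finset ℕ) (p : ℕ → ℕ) (hinj : Set.InjOn p (A : Set ℕ))
    (hp : ∀ a ∈ A, 0 < p a) : A.card.factorial ≤ ∏ a ∈ A, p a := by
  classical
  rw [← Finset.card_image_of_injOn hinj]
  have := factorial_le_prod (A.image p) (by
    intro x hx
    obtain ⟨a, ha, rfl⟩ := Finset.mem_image.1 hx
    exact hp a ha)
  rwa [Finset.prod_image (fun a ha b hb hab => hinj ha hb hab)] at this

/-- Selection of a sub-product of the right size. -/
theorem greedy (A : Finset ℕ) (p : ℕ → ℝ) (Z1 Z2 : ℝ) (h1 : 1 ≤ Z2)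
    (hZ : Z1 * Z1 ≤ Z2) (hp0 : ∀ a ∈ A, 0 < p a) (hp : ∀ a ∈ A, p a ≤ Z2)
    (hprod : Z1 ≤ ∏ a ∈ A, p a) :
    ∃ T ⊆ A, Z1 ≤ ∏ a ∈ T, p a ∧ ∏ a ∈ T, p a ≤ Z2 := by
  classical
  induction A using Finset.induction_on with
  | empty => exact ⟨∅, subset_rfl, hprod, by simpa using h1⟩
  | @insert a A ha ih =>
      have hp0' : ∀ b ∈ A, 0 < p b := fun b hb => hp0 b (Finset.mem_insert_of_mem hb)
      have hp' : ∀ b ∈ A, p b ≤ Z2 := fun b hb => hp b (Finset.mem_insert_of_mem hb)
      by_cases hA : Z1 ≤ ∏ b ∈ A, p b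
      · obtain ⟨T, hT, h2, h3⟩ := ih hp0' hp' hA
        exact ⟨T, hT.trans (Finset.subset_insert a A), h2, h3⟩
      · push Not at hA
        by_cases hle : ∏ b ∈ insert a A, p b ≤ Z2
        · exact ⟨insert a A, subset_rfl, hprod, hle⟩
        · push Not at hle
          rw [Finset.prod_insert ha] at hle
          have hpa : 0 < p a := hp0 a (Finset.mem_insert_self a A)
          have hAp : 0 < ∏ b ∈ A, p b := Finset.prod_pos hp0'
          refine ⟨{a}, by simp, ?_, ?_⟩
          · rw [Finset.prod_singleton]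
            by_contra hcon
            push Not at hcon
            have : p a * ∏ b ∈ A, p b < Z1 * Z1 :=
              mul_lt_mul'' hcon hA hpa.le hAp.le
            linarith
          · rw [Finset.prod_singleton]
            exact hp a (Finset.mem_insert_self a A)

/-- The union bound. -/
theorem union_bound (h Y L : ℕ) (β Z1 Z2 : ℝ) (hβ : 1 < β) (hβ2 : β ≤ 2) (hZ1 : 1 ≤ Z1) (hZ2 : 0 ≤ Z2)
    (E : Finset ℕ) (hE : E ⊆ Ioc Y (Y + L))
    (hE2 : ∀ N ∈ E, ∃ T ⊆ Icc 1 h, ∃ p : ℕ → ℕ,
      (∀ a ∈ T, (p a).Prime ∧ (p a) ^ 2 ∣ N + a) ∧ Set.InjOn p (T : Set ℕ) ∧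
        Z1 ≤ ∏ a ∈ T, (p a : ℝ) ∧ ∏ a ∈ T, (p a : ℝ) ≤ Z2) :
    (E.card : ℝ) ≤ (∑' k : ℕ, (k : ℝ) ^ (-β)) ^ h * (L * Z1 ^ (β - 2) + Z2 ^ β) := by
  classical
  set B := Y + L + h with hB
  set K : Finset ℕ := insert 1 (Nat.primesBelow (B + 1)) with hK
  -- admissible functions
  let V : Finset (Fin h → ℕ) := (Fintype.piFinset (fun _ : Fin h => K)).filter
    (fun f => (∀ i j : Fin h, i ≠ j → Nat.Coprime (f i) (f j)) ∧
      Z1 ≤ ∏ i, (f i : ℝ) ∧ ∏ i, (f i : ℝ) ≤ Z2)
  let S : (Fin h → ℕ) → Finset ℕ := fun f =>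
    (Ioc Y (Y + L)).filter (fun N => ∀ i : Fin h, (f i) ^ 2 ∣ N + (i.val + 1))
  have hsub : E ⊆ V.biUnion S := by
    intro N hN
    obtain ⟨T, hT, p, hp, hinj, hz1, hz2⟩ := hE2 N hN
    have hNY := Finset.mem_Ioc.1 (hE hN)
    rw [Finset.mem_biUnion]
    let f : Fin h → ℕ := fun i => if i.val + 1 ∈ T then p (i.val + 1) else 1
    have hprod : ∏ i, (f i : ℝ) = ∏ a ∈ T, (p a : ℝ) := by
      have e1 : ∏ i, (f i : ℝ) = ∏ i : Fin h, (if i.val + 1 ∈ T then (p (i.val + 1) : ℝ) else 1) := by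
        refine Finset.prod_congr rfl fun i _ => ?_
        simp only [f]
        split_ifs <;> simp
      rw [e1, Fin.prod_univ_eq_prod_range (fun i => if i + 1 ∈ T then (p (i + 1) : ℝ) else 1) h]
      rw [← Finset.prod_filter]
      refine Finset.prod_bij (fun i _ => i + 1) ?_ ?_ ?_ ?_
      · intro i hi
        exact (Finset.mem_filter.1 hi).2
      · intro i _ j _ hij
        omega
      · intro a ha
        have := Finset.mem_Icc.1 (hT ha)
        refine ⟨a - 1, ?_, by omega⟩
        rw [Finset.mem_filter, Finset.mem_range]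
        refine ⟨by omega, ?_⟩
        have : a - 1 + 1 = a := by omega
        rw [this]; exact ha
      · intro i _
        rfl
    refine ⟨f, ?_, ?_⟩
    · rw [Finset.mem_filter, Fintype.mem_piFinset]
      refine ⟨?_, ?_, ?_, ?_⟩
      · intro i
        simp only [f]
        split_ifs with hi
        · rw [hK, Finset.mem_insert]
          right
          rw [Nat.mem_primesBelow]
          refine ⟨?_, (hp _ hi).1⟩
          have h1 := Nat.le_of_dvd (by omega) (hp _ hi).2
          have h2 : p (i.val + 1) ≤ (p (i.val + 1)) ^ 2 := Nat.le_self_pow (by norm_num) _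
          have h3 := i.isLt
          omega
        · exact Finset.mem_insert_self _ _
      · intro i j hij
        simp only [f]
        split_ifs with hi hj
        · refine (Nat.coprime_primes (hp _ hi).1 (hp _ hj).1).2 ?_
          intro hpp
          have := hinj hi hj hpp
          apply hij
          ext
          omega
        · exact Nat.coprime_one_right _
        · exact Nat.coprime_one_left _
        · exact Nat.coprime_one_left _
      · rw [hprod]; exact hz1
      · rw [hprod]; exact hz2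
    · rw [Finset.mem_filter]
      refine ⟨hE hN, ?_⟩
      intro i
      simp only [f]
      split_ifs with hi
      · exact (hp _ hi).2
      · simp
  have hScard : ∀ f ∈ V, ((S f).card : ℝ) ≤ (∏ i, (f i : ℝ) ^ (-β)) * (L * Z1 ^ (β - 2) + Z2 ^ β) := by
    intro f hf
    rw [Finset.mem_filter, Fintype.mem_piFinset] at hf
    obtain ⟨hfK, hcop, hz1, hz2⟩ := hf
    have hpos : ∀ i, 0 < f i := by
      intro i
      have := hfK i
      rw [hK, Finset.mem_insert] at this
      rcases this with h1 | h1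
      · omega
      · exact (Nat.mem_primesBelow.1 h1).2.pos
    set D : ℕ := ∏ i, f i with hD
    have hDr : (D : ℝ) = ∏ i, (f i : ℝ) := by rw [hD]; push_cast; rfl
    have hDpos : 0 < D := Finset.prod_pos fun i _ => hpos i
    have hDpos' : (0 : ℝ) < D := by exact_mod_cast hDpos
    have h1 : ((S f).card : ℝ) ≤ (L : ℝ) / ((D ^ 2 : ℕ) : ℝ) + 1 := by
      by_cases hne : (S f).Nonempty
      · obtain ⟨N0, hN0⟩ := hne
        refine le_trans ?_ (modEq_card Y L (D ^ 2) N0 (pow_pos hDpos 2)).2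
        have : (S f).card ≤ ((Ioc Y (Y + L)).filter (fun x => x ≡ N0 [MOD D ^ 2])).card := by
          refine Finset.card_le_card ?_
          intro N hN
          rw [Finset.mem_filter] at hN hN0 ⊢
          refine ⟨hN.1, ?_⟩
          rw [Nat.modEq_iff_dvd]
          have hz : ((D ^ 2 : ℕ) : ℤ) = ∏ i, ((f i : ℤ) ^ 2) := by
            rw [hD]; push_cast; rw [Finset.prod_pow]
          rw [hz]
          refine Finset.prod_dvd_of_coprime ?_ ?_
          · intro i _ j _ hij
            exact IsCoprime.pow (Nat.isCoprime_iff_coprime.2 (hcop i j hij))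
          · intro i _
            have h3 : ((f i : ℤ) ^ 2) ∣ ((N : ℤ) + (i.val + 1)) := by
              have := hN.2 i
              exact_mod_cast this
            have h4 : ((f i : ℤ) ^ 2) ∣ ((N0 : ℤ) + (i.val + 1)) := by
              have := hN0.2 i
              exact_mod_cast this
            have := dvd_sub h4 h3
            have e : ((N0 : ℤ) + (i.val + 1)) - ((N : ℤ) + (i.val + 1)) = (N0 : ℤ) - N := by ring
            rwa [e] at this
        exact_mod_cast this
      · rw [Finset.not_nonempty_iff_eq_empty] at hne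
        rw [hne]
        simp only [Finset.card_empty, Nat.cast_zero]
        positivity
    have h2 : ∏ i, (f i : ℝ) ^ (-β) = (D : ℝ) ^ (-β) := by
      rw [hDr]
      exact Real.finsetProd_rpow _ _ (fun i _ => Nat.cast_nonneg _) _
    rw [h2]
    have hZ1' : (0 : ℝ) < Z1 := by linarith
    have h3 : (L : ℝ) / ((D ^ 2 : ℕ) : ℝ) ≤ (D : ℝ) ^ (-β) * (L * Z1 ^ (β - 2)) := by
      have e1 : ((D ^ 2 : ℕ) : ℝ) = (D : ℝ) ^ (2 : ℝ) := by push_cast; norm_cast
      have e2 : (D : ℝ) ^ (-(2 : ℝ)) = (D : ℝ) ^ (-β) * (D : ℝ) ^ (β - 2) := by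
        rw [← Real.rpow_add hDpos']; congr 1; ring
      have e3 : (D : ℝ) ^ (β - 2) ≤ Z1 ^ (β - 2) := by
        refine Real.rpow_le_rpow_of_nonpos hZ1' ?_ (by linarith)
        rw [hDr]; exact hz1
      rw [e1, div_eq_mul_inv, ← Real.rpow_neg hDpos'.le, e2]
      have e4 : (0 : ℝ) ≤ (D : ℝ) ^ (-β) := Real.rpow_nonneg hDpos'.le _
      have e5 : (0 : ℝ) ≤ (L : ℝ) := Nat.cast_nonneg _
      calc (L : ℝ) * ((D : ℝ) ^ (-β) * (D : ℝ) ^ (β - 2))
          = ((L : ℝ) * (D : ℝ) ^ (-β)) * (D : ℝ) ^ (β - 2) := by ring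
        _ ≤ ((L : ℝ) * (D : ℝ) ^ (-β)) * Z1 ^ (β - 2) :=
            mul_le_mul_of_nonneg_left e3 (mul_nonneg e5 e4)
        _ = _ := by ring
    have h4 : (1 : ℝ) ≤ (D : ℝ) ^ (-β) * Z2 ^ β := by
      rw [Real.rpow_neg hDpos'.le, ← div_eq_inv_mul, ← Real.div_rpow (by
        have : (D : ℝ) ≤ Z2 := by rw [hDr]; exact hz2
        linarith) hDpos'.le]
      refine Real.one_le_rpow ?_ (by linarith)
      rw [le_div_iff₀ hDpos', one_mul, hDr]
      exact hz2
    calc ((S f).card : ℝ) ≤ _ := h1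
      _ ≤ (D : ℝ) ^ (-β) * (L * Z1 ^ (β - 2)) + (D : ℝ) ^ (-β) * Z2 ^ β := add_le_add h3 h4
      _ = _ := by ring
  have hsum : Summable (fun k : ℕ => (k : ℝ) ^ (-β)) := Real.summable_nat_rpow.2 (by linarith)
  have hrest : (0 : ℝ) ≤ L * Z1 ^ (β - 2) + Z2 ^ β := by
    have : (0 : ℝ) ≤ Z1 ^ (β - 2) := Real.rpow_nonneg (by linarith) _
    have h5 : (0 : ℝ) ≤ Z2 ^ β := Real.rpow_nonneg hZ2 _
    positivity
  calc (E.card : ℝ) ≤ ((V.biUnion S).card : ℝ) := by exact_mod_cast Finset.card_le_card hsub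
    _ ≤ ∑ f ∈ V, ((S f).card : ℝ) := by exact_mod_cast Finset.card_biUnion_le
    _ ≤ ∑ f ∈ V, (∏ i, (f i : ℝ) ^ (-β)) * (L * Z1 ^ (β - 2) + Z2 ^ β) :=
        Finset.sum_le_sum hScard
    _ = (∑ f ∈ V, ∏ i, (f i : ℝ) ^ (-β)) * (L * Z1 ^ (β - 2) + Z2 ^ β) := by
        rw [Finset.sum_mul]
    _ ≤ (∑' k : ℕ, (k : ℝ) ^ (-β)) ^ h * (L * Z1 ^ (β - 2) + Z2 ^ β) := by
        refine mul_le_mul_of_nonneg_right ?_ hrest
        calc ∑ f ∈ V, ∏ i, (f i : ℝ) ^ (-β)
            ≤ ∑ f ∈ Fintype.piFinset (fun _ : Fin h => K), ∏ i, (f i : ℝ) ^ (-β) := by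
              refine Finset.sum_le_sum_of_subset_of_nonneg (Finset.filter_subset _ _) ?_
              intro f _ _
              exact Finset.prod_nonneg fun i _ => Real.rpow_nonneg (Nat.cast_nonneg _) _
          _ = ∏ _i : Fin h, ∑ k ∈ K, (k : ℝ) ^ (-β) :=
              (Finset.prod_univ_sum (fun _ : Fin h => K) (fun _ k => (k : ℝ) ^ (-β))).symm
          _ = (∑ k ∈ K, (k : ℝ) ^ (-β)) ^ h := by
              rw [Finset.prod_const, Finset.card_univ, Fintype.card_fin]
          _ ≤ _ := by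
              refine pow_le_pow_left₀ (Finset.sum_nonneg fun k _ =>
                Real.rpow_nonneg (Nat.cast_nonneg _) _) ?_ h
              exact hsum.sum_le_tsum K (fun k _ => Real.rpow_nonneg (Nat.cast_nonneg _) _)

end Pool.Agent.SGap
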