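import Mathlib
import Pool.Agent.SGap.Union
import Pool.Agent.SGap.Asymp

set_option autoImplicit false

namespace Pool.Agent.SGap

open Finset Filter Topology

theorem one_le_tsum (β : ℝ) (hβ : 1 < β) : (1 : ℝ) ≤ ∑' k : ℕ, (k : ℝ) ^ (-β) := by
  have hsum : Summable (fun k : ℕ => (k : ℝ) ^ (-β)) := Real.summable_nat_rpow.2 (by linarith)
  have := hsum.sum_le_tsum {1} (fun k _ => Real.rpow_nonneg (Nat.cast_nonneg _) _)
  simpa using this

/-- Upper bound for the number of killed windows in a dyadic block. -/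
theorem block (lam κ ε : ℝ) (hκ : 0 < κ) (hκ3 : κ ≤ 1 / 3) (hl : κ < lam) (hε : 0 < ε) :
    ∃ Y0 : ℕ, ∀ Y : ℕ, Y0 ≤ Y → ∀ E ⊆ Ioc Y (Y + (Y + 1)),
      (∀ N ∈ E, W ⌊lam * (Real.pi ^ 2 / 6) * ell Y⌋₊ N) → (E.card : ℝ) ≤ (Y : ℝ) ^ (1 - κ + ε) := by
  set pi2 : ℝ := Real.pi ^ 2 / 6 with hpi2
  have hpi : 0 < pi2 := by positivity
  have hlam : 0 < lam := lt_trans hκ hl
  set κ' : ℝ := (κ + lam) / 2 with hκ'
  have hκκ' : κ < κ' := by rw [hκ']; linarith
  have hκ'l : κ' < lam := by rw [hκ']; linarith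
  have hκ'0 : 0 < κ' := by linarith
  set δ : ℝ := (lam - κ') / (2 * (lam * pi2)) with hδ
  have hδ0 : 0 < δ := by rw [hδ]; apply div_pos (by linarith); positivity
  set η : ℝ := min (ε / 2) 1 with hη
  have hη0 : 0 < η := by rw [hη]; exact lt_min (by linarith) one_pos
  have hη1 : η ≤ 1 := min_le_right _ _
  have hη2 : η ≤ ε / 2 := min_le_left _ _
  set β : ℝ := 1 + η with hβ
  set C : ℝ := ∑' k : ℕ, (k : ℝ) ^ (-β) with hC
  have hC1 : 1 ≤ C := one_le_tsum β (by linarith)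
  obtain ⟨h0, hh0⟩ := many_primes δ hδ0
  -- eventual facts
  have hc : 0 < lam * pi2 := by positivity
  have ev1 : ∀ᶠ Y : ℕ in atTop, (h0 : ℝ) + 1 ≤ lam * pi2 * ell Y :=
    (ell_tendsto.const_mul_atTop hc).eventually (eventually_ge_atTop _)
  have ev2 : ∀ᶠ Y : ℕ in atTop, 2 * (6 / Real.pi ^ 2) / (lam - κ') ≤ ell Y :=
    ell_tendsto.eventually (eventually_ge_atTop _)
  have ev3 : ∀ᶠ Y : ℕ in atTop, Real.exp 1 ≤ κ' * ell Y :=
    (ell_tendsto.const_mul_atTop hκ'0).eventually (eventually_ge_atTop _)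
  have ev4 : ∀ᶠ Y : ℕ in atTop, κ < (κ' * ell Y) * (Real.log (κ' * ell Y) - 1) / Real.log Y :=
    (ell_ent κ' hκ'0).eventually (lt_mem_nhds hκκ')
  have ev5 : ∀ᶠ Y : ℕ in atTop, (0 : ℝ) < Real.log Y :=
    log_nat_tendsto.eventually (eventually_gt_atTop 0)
  have ev6 : ∀ᶠ Y : ℕ in atTop, (lam * pi2 * Real.log C) * (ell Y / Real.log Y) < ε / 4 := by
    have := ell_div_log.const_mul (lam * pi2 * Real.log C)
    rw [mul_zero] at this
    exact this.eventually (gt_mem_nhds (by linarith))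
  have ev7 : ∀ᶠ Y : ℕ in atTop, Real.log 3 ≤ ε / 4 * Real.log Y :=
    (log_nat_tendsto.const_mul_atTop (by linarith : (0 : ℝ) < ε / 4)).eventually
      (eventually_ge_atTop _)
  have ev8 : ∀ᶠ Y : ℕ in atTop, (lam * pi2) * (ell Y / Real.log Y) < 1 := by
    have := ell_div_log.const_mul (lam * pi2)
    rw [mul_zero] at this
    exact this.eventually (gt_mem_nhds (by linarith))
  have ev9 : ∀ᶠ Y : ℕ in atTop, (64 : ℕ) ≤ Y := eventually_ge_atTop 64
  obtain ⟨Y0, hY0⟩ := eventually_atTop.1 (ev1.and (ev2.and (ev3.and (ev4.and (ev5.and (ev6.and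
    (ev7.and (ev8.and ev9))))))))
  refine ⟨Y0, fun Y hY E hE hW => ?_⟩
  obtain ⟨e1, e2, e3, e4, e5, e6, e7, e8, e9⟩ := hY0 Y hY
  have hYpos : (0 : ℝ) < Y := by exact_mod_cast (by omega : 0 < Y)
  have hY1 : (1 : ℝ) ≤ Y := by exact_mod_cast (by omega : 1 ≤ Y)
  set l : ℝ := ell Y with hl'
  have hl0 : 0 < l := by
    have : 0 < κ' * l := lt_of_lt_of_le (Real.exp_pos 1) e3
    exact pos_of_mul_pos_right this hκ'0.le
  set h : ℕ := ⌊lam * pi2 * l⌋₊ with hh
  have hh1 : (h : ℝ) ≤ lam * pi2 * l := Nat.floor_le (by positivity)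
  have hh2 : lam * pi2 * l < h + 1 := Nat.lt_floor_add_one _
  have hh0' : h0 ≤ h := by
    have : (h0 : ℝ) < h + 1 := by linarith
    have : h0 < h + 1 := by exact_mod_cast this
    omega
  have hhY : h ≤ Y := by
    have h3 : lam * pi2 * l ≤ Real.log Y := by
      have : lam * pi2 * (l / Real.log Y) * Real.log Y ≤ 1 * Real.log Y :=
        mul_le_mul_of_nonneg_right e8.le e5.le
      have e : lam * pi2 * (l / Real.log Y) * Real.log Y = lam * pi2 * l := by
        field_simp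
      linarith
    have h4 : Real.log Y ≤ Y := (Real.log_le_sub_one_of_pos hYpos).trans (by linarith)
    have : (h : ℝ) ≤ Y := by linarith
    exact_mod_cast this
  -- the sum of the number of primes
  have hinv : 6 / Real.pi ^ 2 * pi2 = 1 := by rw [hpi2]; field_simp
  have hKbound : κ' * l ≤ (6 / Real.pi ^ 2 - δ) * h := by
    have hd1 : (6 / Real.pi ^ 2 - δ) * (lam * pi2) = lam - (lam - κ') / 2 := by
      have : δ * (lam * pi2) = (lam - κ') / 2 := by rw [hδ]; field_simp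
      calc (6 / Real.pi ^ 2 - δ) * (lam * pi2) = lam * (6 / Real.pi ^ 2 * pi2) - δ * (lam * pi2) := by
            ring
        _ = _ := by rw [hinv, this]; ring
    have hd0 : 0 ≤ 6 / Real.pi ^ 2 - δ := by
      by_contra hcon
      push Not at hcon
      have : (6 / Real.pi ^ 2 - δ) * (lam * pi2) < 0 := mul_neg_of_neg_of_pos hcon hc
      rw [hd1] at this
      linarith
    have h3 : (6 / Real.pi ^ 2 - δ) * (lam * pi2 * l - 1) ≤ (6 / Real.pi ^ 2 - δ) * h :=
      mul_le_mul_of_nonneg_left (by linarith) hd0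
    have h4 : (6 / Real.pi ^ 2 - δ) * (lam * pi2 * l - 1) =
        (lam - (lam - κ') / 2) * l - (6 / Real.pi ^ 2 - δ) := by
      rw [← hd1]; ring
    rw [h4] at h3
    have h5 : 6 / Real.pi ^ 2 ≤ (lam - κ') / 2 * l := by
      have hpos : 0 < lam - κ' := by linarith
      rw [div_le_iff₀ hpos] at e2
      linarith
    nlinarith
  set Z1 : ℝ := (Y : ℝ) ^ κ with hZ1
  set Z2 : ℝ := (Y : ℝ) ^ (1 - κ) with hZ2
  have hZ1' : 1 ≤ Z1 := Real.one_le_rpow hY1 hκ.le
  have hZ2' : 1 ≤ Z2 := Real.one_le_rpow hY1 (by linarith)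
  have hZ : Z1 * Z1 ≤ Z2 := by
    rw [hZ1, hZ2, ← Real.rpow_add hYpos]
    exact Real.rpow_le_rpow_of_exponent_le hY1 (by linarith)
  have hub := union_bound h Y (Y + 1) β Z1 Z2 (by linarith) (by linarith) hZ1' (by linarith) E hE (by
    intro N hN
    obtain ⟨A, hA, p, hcard, hp⟩ := hh0 h hh0' N (hW N hN)
    have hinj := inj_of_large hA (fun a ha => (hp a ha).2)
    have hNY := Finset.mem_Ioc.1 (hE hN)
    have hAK : κ' * l ≤ (A.card : ℝ) := le_trans hKbound hcard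
    have hApos : 0 < A.card := by
      have : (0 : ℝ) < A.card := lt_of_lt_of_le (by positivity) hAK
      exact_mod_cast this
    have hfac : κ * Real.log Y ≤ Real.log (A.card.factorial : ℝ) := by
      refine le_trans ?_ (log_factorial_ge A.card hApos)
      refine le_trans ?_ (ent_mono e3 hAK)
      rw [lt_div_iff₀ e5] at e4
      exact e4.le
    have hprod : Z1 ≤ ∏ a ∈ A, (p a : ℝ) := by
      have h3 := factorial_le_prod_inj A p hinj (fun a ha => (hp a ha).1.pos)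
      have h4 : (A.card.factorial : ℝ) ≤ ∏ a ∈ A, (p a : ℝ) := by exact_mod_cast h3
      refine le_trans ?_ h4
      have hf : (0 : ℝ) < (A.card.factorial : ℝ) := by exact_mod_cast A.card.factorial_pos
      rw [hZ1, ← Real.log_le_log_iff (by positivity) hf, Real.log_rpow hYpos]
      exact hfac
    obtain ⟨T, hT, hT1, hT2⟩ := greedy A (fun a => (p a : ℝ)) Z1 Z2 hZ2' hZ
      (fun a ha => by exact_mod_cast (hp a ha).1.pos) (by
        intro a ha
        have hd := (hp a ha).2.2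
        have h5 := Nat.le_of_dvd (by omega) hd
        have ha' := (Finset.mem_Icc.1 (hA ha)).2
        have h6 : (p a) ^ 2 ≤ 4 * Y := by omega
        have h7 : ((p a : ℝ)) ^ 2 ≤ 4 * Y := by exact_mod_cast h6
        have h8 : (4 : ℝ) * Y ≤ (Z2) ^ 2 := by
          have h9 : (Z2) ^ 2 = (Y : ℝ) ^ (2 * (1 - κ)) := by
            rw [hZ2, ← Real.rpow_natCast, ← Real.rpow_mul hYpos.le]
            congr 1
            push_cast
            ring
          rw [h9]
          have h10 : (Y : ℝ) ^ ((1 : ℝ) / 3 + 1) ≤ (Y : ℝ) ^ (2 * (1 - κ)) :=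
            Real.rpow_le_rpow_of_exponent_le hY1 (by linarith)
          refine le_trans ?_ h10
          rw [Real.rpow_add hYpos, Real.rpow_one]
          have h11 : (4 : ℝ) ≤ (Y : ℝ) ^ ((1 : ℝ) / 3) := by
            have h12 : (64 : ℝ) ≤ Y := by exact_mod_cast e9
            have h13 : (64 : ℝ) ^ ((1 : ℝ) / 3) ≤ (Y : ℝ) ^ ((1 : ℝ) / 3) :=
              Real.rpow_le_rpow (by norm_num) h12 (by norm_num)
            have h14 : (64 : ℝ) ^ ((1 : ℝ) / 3) = 4 := by
              rw [show (64 : ℝ) = 4 ^ (3 : ℕ) by norm_num, ← Real.rpow_natCast, ← Real.rpow_mul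
                (by norm_num)]
              norm_num
            linarith
          exact mul_le_mul_of_nonneg_right h11 hYpos.le
        exact abs_le_of_sq_le_sq' (le_trans h7 h8) (by linarith) |>.2) hprod
    exact ⟨T, hT.trans hA, p, fun a ha => ⟨(hp a (hT ha)).1, (hp a (hT ha)).2.2⟩,
      hinj.mono (by exact_mod_cast hT), hT1, hT2⟩)
  -- simplify the bound
  have hYc : ((Y + 1 : ℕ) : ℝ) ≤ 2 * Y := by push_cast; linarith
  have hs1 : ((Y + 1 : ℕ) : ℝ) * Z1 ^ (β - 2) ≤ 2 * (Y : ℝ) ^ (1 - κ + η) := by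
    have h3 : Z1 ^ (β - 2) = (Y : ℝ) ^ (κ * (β - 2)) := by
      rw [hZ1, ← Real.rpow_mul hYpos.le]
    rw [h3]
    calc ((Y + 1 : ℕ) : ℝ) * (Y : ℝ) ^ (κ * (β - 2))
        ≤ (2 * Y) * (Y : ℝ) ^ (κ * (β - 2)) :=
          mul_le_mul_of_nonneg_right hYc (Real.rpow_nonneg hYpos.le _)
      _ = 2 * (Y : ℝ) ^ (1 + κ * (β - 2)) := by
          rw [Real.rpow_add hYpos, Real.rpow_one]; ring
      _ ≤ 2 * (Y : ℝ) ^ (1 - κ + η) := by
          refine mul_le_mul_of_nonneg_left ?_ (by norm_num)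
          refine Real.rpow_le_rpow_of_exponent_le hY1 ?_
          rw [hβ]
          nlinarith
  have hs2 : Z2 ^ β ≤ (Y : ℝ) ^ (1 - κ + η) := by
    rw [hZ2, ← Real.rpow_mul hYpos.le]
    refine Real.rpow_le_rpow_of_exponent_le hY1 ?_
    rw [hβ]
    nlinarith
  have hs3 : C ^ h ≤ (Y : ℝ) ^ (ε / 4) := by
    have hCpos : 0 < C := by linarith
    rw [← Real.log_le_log_iff (by positivity) (by positivity), Real.log_pow, Real.log_rpow hYpos]
    have hlogC : 0 ≤ Real.log C := Real.log_nonneg hC1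
    have h3 : (h : ℝ) * Real.log C ≤ lam * pi2 * l * Real.log C :=
      mul_le_mul_of_nonneg_right hh1 hlogC
    have h4 : lam * pi2 * Real.log C * (l / Real.log Y) * Real.log Y ≤ ε / 4 * Real.log Y :=
      mul_le_mul_of_nonneg_right e6.le e5.le
    have e : lam * pi2 * Real.log C * (l / Real.log Y) * Real.log Y = lam * pi2 * l * Real.log C := by
      field_simp
    linarith
  have hs4 : (3 : ℝ) ≤ (Y : ℝ) ^ (ε / 4) := by
    rw [← Real.log_le_log_iff (by norm_num) (by positivity), Real.log_rpow hYpos]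
    exact e7
  have hpos3 : (0 : ℝ) ≤ (Y : ℝ) ^ (1 - κ + η) := Real.rpow_nonneg hYpos.le _
  calc (E.card : ℝ) ≤ C ^ h * (((Y + 1 : ℕ) : ℝ) * Z1 ^ (β - 2) + Z2 ^ β) := hub
    _ ≤ C ^ h * (3 * (Y : ℝ) ^ (1 - κ + η)) := by
        refine mul_le_mul_of_nonneg_left ?_ (by positivity)
        linarith
    _ ≤ (Y : ℝ) ^ (ε / 4) * ((Y : ℝ) ^ (ε / 4) * (Y : ℝ) ^ (1 - κ + η)) := by
        refine mul_le_mul hs3 ?_ (by positivity) (by positivity)
        exact mul_le_mul_of_nonneg_right hs4 hpos3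
    _ = (Y : ℝ) ^ (ε / 4 + (ε / 4 + (1 - κ + η))) := by
        rw [← Real.rpow_add hYpos, ← Real.rpow_add hYpos]
    _ ≤ (Y : ℝ) ^ (1 - κ + ε) := by
        refine Real.rpow_le_rpow_of_exponent_le hY1 ?_
        linarith

end Pool.Agent.SGap
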