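import Mathlib
import Pool.Agent.SGap.Block

set_option autoImplicit false

namespace Pool.Agent.SGap

open Finset Filter Topology

/-- The increasing enumeration of the squarefree numbers (`sq 0 = 1`). -/
noncomputable def sq (n : ℕ) : ℕ := Nat.nth Squarefree n

theorem inf_sqf : (Set.ofPred (Squarefree : ℕ → Prop)).Infinite := by
  refine Set.Infinite.mono ?_ Nat.infinite_setOfPred_prime
  intro p hp
  exact (show p.Prime from hp).prime.squarefree

theorem sq_mem (n : ℕ) : Squarefree (sq n) := Nat.nth_mem_of_infinite inf_sqf n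

theorem sq_strictMono : StrictMono sq := Nat.nth_strictMono inf_sqf

theorem not_sqf_between {n m : ℕ} (h1 : sq n < m) (h2 : m < sq (n + 1)) : ¬ Squarefree m := by
  intro h
  have := Nat.le_nth_of_lt_nth_succ h2 h
  unfold sq at h1
  omega

/-- The gap after `sq n` exceeds `lam * (π ^ 2 / 6) * log / log log`. -/
def Big (lam : ℝ) (n : ℕ) : Prop :=
  lam * (Real.pi ^ 2 / 6) * ell (sq n) < (sq (n + 1) : ℝ) - (sq n : ℝ)

/-- The indices of large gaps below `X`. -/
def bigSet (lam : ℝ) (X : ℕ) : Set ℕ := {n | sq n ≤ X ∧ Big lam n}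

theorem bigSet_finite (lam : ℝ) (X : ℕ) : (bigSet lam X).Finite := by
  refine (Set.finite_Iic X).subset ?_
  intro n hn
  exact le_trans (sq_strictMono.le_apply) hn.1

/-- The values `sq n` of the large gaps below `X`. -/
noncomputable def vals (lam : ℝ) (X : ℕ) : Finset ℕ := by
  classical
  exact (Finset.range (X + 1)).filter fun N => ∃ n, sq n = N ∧ Big lam n

theorem ncard_eq (lam : ℝ) (X : ℕ) : (bigSet lam X).ncard = (vals lam X).card := by
  classical
  have h1 : (sq '' (bigSet lam X)) = (vals lam X : Set ℕ) := by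
    ext N
    simp only [Set.mem_image, vals, Finset.coe_filter, Finset.mem_range]
    constructor
    · rintro ⟨n, ⟨h1, h2⟩, rfl⟩
      exact ⟨by omega, n, rfl, h2⟩
    · rintro ⟨h1, n, rfl, h2⟩
      exact ⟨n, ⟨by omega, h2⟩, rfl⟩
  rw [← Set.ncard_image_of_injective (bigSet lam X) sq_strictMono.injective, h1,
    Set.ncard_coe_finset]

theorem vals_succ (lam : ℝ) (X Y : ℕ) (h : X ≤ Y + (Y + 1)) :
    vals lam X ⊆ vals lam Y ∪ (vals lam X).filter (fun N => N ∈ Ioc Y (Y + (Y + 1))) := by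
  classical
  intro N hN
  rw [Finset.mem_union, Finset.mem_filter]
  unfold vals at hN ⊢
  rw [Finset.mem_filter, Finset.mem_range] at hN ⊢
  by_cases hle : N ≤ Y
  · exact Or.inl ⟨by omega, hN.2⟩
  · refine Or.inr ⟨?_, ?_⟩
    · rw [Finset.mem_filter, Finset.mem_range]
      exact hN
    · rw [Finset.mem_Ioc]; omega

theorem upper (lam ε : ℝ) (hlam : 0 < lam) (hε : 0 < ε) :
    ∃ X0 : ℕ, ∀ X : ℕ, X0 ≤ X →
      ((bigSet lam X).ncard : ℝ) ≤ (X : ℝ) ^ (1 - min lam (1 / 3) + ε) := by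
  classical
  set m : ℝ := min lam (1 / 3) with hm
  have hm0 : 0 < m := lt_min hlam (by norm_num)
  have hm1 : m ≤ lam := min_le_left _ _
  have hm3 : m ≤ 1 / 3 := min_le_right _ _
  set κ : ℝ := m - min (ε / 4) (m / 2) with hκ
  have hmin0 : 0 < min (ε / 4) (m / 2) := lt_min (by linarith) (by linarith)
  have hmin1 : min (ε / 4) (m / 2) ≤ ε / 4 := min_le_left _ _
  have hmin2 : min (ε / 4) (m / 2) ≤ m / 2 := min_le_right _ _
  have hκ0 : 0 < κ := by rw [hκ]; linarith
  have hκm : κ < m := by rw [hκ]; linarith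
  have hκe : 1 - κ ≤ 1 - m + ε / 4 := by rw [hκ]; linarith
  obtain ⟨Y0, hY0⟩ := block lam κ (ε / 4) hκ0 (by linarith) (by linarith) (by linarith)
  set c : ℝ := 1 - κ + ε / 4 with hc
  have hc0 : 0 < c := by rw [hc]; linarith
  -- a threshold where `ell` is monotone
  obtain ⟨Y1, hY1⟩ := eventually_atTop.1
    (log_nat_tendsto.eventually (eventually_ge_atTop (Real.exp 1)))
  set Y2 : ℕ := Y0 + Y1 + 2 with hY2
  have hblock : ∀ X Y : ℕ, Y2 ≤ Y →
      (((vals lam X).filter (fun N => N ∈ Ioc Y (Y + (Y + 1)))).card : ℝ) ≤ (Y : ℝ) ^ c := by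
    intro X Y hY
    refine hY0 Y (by omega) _ (fun N hN => (Finset.mem_filter.1 hN).2) ?_
    intro N hN a ha
    rw [Finset.mem_filter] at hN
    obtain ⟨hN1, hN2⟩ := hN
    unfold vals at hN1
    rw [Finset.mem_filter] at hN1
    obtain ⟨_, n, hn, hbig⟩ := hN1
    have hNY := Finset.mem_Ioc.1 hN2
    have ha' := Finset.mem_Icc.1 ha
    have hYpos : (0 : ℝ) < Y := by exact_mod_cast (by omega : 0 < Y)
    have hmono : ell Y ≤ ell N := by
      refine ell_mono (hY1 Y (by omega)) (by exact_mod_cast hNY.1.le) hYpos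
    have hpi : (0 : ℝ) < lam * (Real.pi ^ 2 / 6) := by positivity
    have haf : (a : ℝ) ≤ lam * (Real.pi ^ 2 / 6) * ell Y := by
      have h1 : (a : ℝ) ≤ (⌊lam * (Real.pi ^ 2 / 6) * ell Y⌋₊ : ℝ) := by exact_mod_cast ha'.2
      by_cases h0 : 0 ≤ lam * (Real.pi ^ 2 / 6) * ell Y
      · exact h1.trans (Nat.floor_le h0)
      · push Not at h0
        have h2 : ⌊lam * (Real.pi ^ 2 / 6) * ell Y⌋₊ = 0 := Nat.floor_of_nonpos h0.le
        omega
    unfold Big at hbig
    rw [hn] at hbig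
    have h3 : (N : ℝ) + a < (sq (n + 1) : ℝ) := by
      have : lam * (Real.pi ^ 2 / 6) * ell Y ≤ lam * (Real.pi ^ 2 / 6) * ell N :=
        mul_le_mul_of_nonneg_left hmono hpi.le
      linarith
    have h4 : N + a < sq (n + 1) := by exact_mod_cast h3
    exact not_sqf_between (n := n) (by omega) h4
  have key : ∀ X : ℕ, ((vals lam X).card : ℝ) ≤ (2 * Y2 + 3 : ℕ) + ((Nat.log 2 X : ℝ) + 1) * (X : ℝ) ^ c := by
    intro X
    induction X using Nat.strong_induction_on with
    | _ X ih =>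
      by_cases hX : X < 2 * Y2 + 2
      · have h1 : (vals lam X).card ≤ X + 1 := by
          refine le_trans (Finset.card_le_card (Finset.filter_subset _ _)) ?_
          rw [Finset.card_range]
        have h2 : ((vals lam X).card : ℝ) ≤ (2 * Y2 + 3 : ℕ) := by exact_mod_cast (by omega)
        have h3 : 0 ≤ ((Nat.log 2 X : ℝ) + 1) * (X : ℝ) ^ c := by positivity
        linarith
      · push Not at hX
        set Y : ℕ := X / 2 with hY
        have hYX : Y < X := by omega
        have hYY : Y2 ≤ Y := by omega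
        have h1 := ih Y hYX
        have h2 := hblock X Y hYY
        have h3 : ((vals lam X).card : ℝ) ≤ ((vals lam Y).card : ℝ) +
            (((vals lam X).filter (fun N => N ∈ Ioc Y (Y + (Y + 1)))).card : ℝ) := by
          have := Finset.card_le_card (vals_succ lam X Y (by omega))
          have h4 := Finset.card_union_le (vals lam Y)
            ((vals lam X).filter (fun N => N ∈ Ioc Y (Y + (Y + 1))))
          exact_mod_cast le_trans this h4
        have hlog : Nat.log 2 X = Nat.log 2 Y + 1 := by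
          rw [hY, Nat.log_div_base]
          have : 1 ≤ Nat.log 2 X := Nat.log_pos (by norm_num) (by omega)
          omega
        have h5 : (Y : ℝ) ^ c ≤ (X : ℝ) ^ c :=
          Real.rpow_le_rpow (Nat.cast_nonneg _) (by exact_mod_cast hYX.le) hc0.le
        have h6 : ((Nat.log 2 Y : ℝ) + 1) * (Y : ℝ) ^ c ≤ ((Nat.log 2 Y : ℝ) + 1) * (X : ℝ) ^ c :=
          mul_le_mul_of_nonneg_left h5 (by positivity)
        have h7 : (((Nat.log 2 X : ℕ) : ℝ) + 1) * (X : ℝ) ^ c =
            ((Nat.log 2 Y : ℝ) + 1) * (X : ℝ) ^ c + (X : ℝ) ^ c := by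
          rw [hlog]; push_cast; ring
        linarith
  -- absorb the logarithm
  have hfin : ∀ᶠ X : ℕ in atTop, ((2 * Y2 + 3 : ℕ) : ℝ) + ((Nat.log 2 X : ℝ) + 1) ≤
      (X : ℝ) ^ (ε / 2) := by
    have h1 : Tendsto (fun x : ℝ => (((2 * Y2 + 3 : ℕ) : ℝ) + 1 + (Real.log 2)⁻¹ * Real.log x) /
        x ^ (ε / 2)) atTop (𝓝 0) := by
      have h2 : Tendsto (fun x : ℝ => Real.log x / x ^ (ε / 2)) atTop (𝓝 0) :=
        (isLittleO_log_rpow_atTop (by linarith)).tendsto_div_nhds_zero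
      have h3 : Tendsto (fun x : ℝ => (((2 * Y2 + 3 : ℕ) : ℝ) + 1) / x ^ (ε / 2)) atTop (𝓝 0) :=
        Tendsto.const_div_atTop (tendsto_rpow_atTop (by linarith)) _
      have h4 := h3.add (h2.const_mul (Real.log 2)⁻¹)
      rw [mul_zero, add_zero] at h4
      refine h4.congr fun x => ?_
      ring
    have h5 := (h1.comp tendsto_natCast_atTop_atTop).eventually (gt_mem_nhds one_pos)
    filter_upwards [h5, eventually_ge_atTop 1] with X hX hX1
    have hXpos : (0 : ℝ) < X := by exact_mod_cast hX1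
    have hp : (0 : ℝ) < (X : ℝ) ^ (ε / 2) := Real.rpow_pos_of_pos hXpos _
    simp only [Function.comp] at hX
    rw [div_lt_one hp] at hX
    have h6 : (Nat.log 2 X : ℝ) ≤ (Real.log 2)⁻¹ * Real.log X := by
      have h7 : (2 : ℝ) ^ (Nat.log 2 X) ≤ X := by
        exact_mod_cast Nat.pow_log_le_self 2 (by omega)
      have h8 := Real.log_le_log (by positivity) h7
      rw [Real.log_pow] at h8
      have h9 : 0 < Real.log 2 := Real.log_pos (by norm_num)
      rw [inv_mul_eq_div, le_div_iff₀ h9]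
      exact h8
    linarith
  obtain ⟨X0, hX0⟩ := eventually_atTop.1 (hfin.and (eventually_ge_atTop 1))
  refine ⟨X0, fun X hX => ?_⟩
  obtain ⟨h1, h2⟩ := hX0 X hX
  have hXpos : (0 : ℝ) < X := by exact_mod_cast h2
  have hX1 : (1 : ℝ) ≤ X := by exact_mod_cast h2
  have hXc : (1 : ℝ) ≤ (X : ℝ) ^ c := Real.one_le_rpow hX1 hc0.le
  rw [ncard_eq]
  calc ((vals lam X).card : ℝ) ≤ (2 * Y2 + 3 : ℕ) + ((Nat.log 2 X : ℝ) + 1) * (X : ℝ) ^ c := key X
    _ ≤ ((2 * Y2 + 3 : ℕ) : ℝ) * (X : ℝ) ^ c + ((Nat.log 2 X : ℝ) + 1) * (X : ℝ) ^ c := by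
        have : ((2 * Y2 + 3 : ℕ) : ℝ) * 1 ≤ ((2 * Y2 + 3 : ℕ) : ℝ) * (X : ℝ) ^ c :=
          mul_le_mul_of_nonneg_left hXc (Nat.cast_nonneg _)
        linarith
    _ = (((2 * Y2 + 3 : ℕ) : ℝ) + ((Nat.log 2 X : ℝ) + 1)) * (X : ℝ) ^ c := by ring
    _ ≤ (X : ℝ) ^ (ε / 2) * (X : ℝ) ^ c := mul_le_mul_of_nonneg_right h1 (by positivity)
    _ = (X : ℝ) ^ (ε / 2 + c) := (Real.rpow_add hXpos _ _).symm
    _ ≤ (X : ℝ) ^ (1 - m + ε) := by
        refine Real.rpow_le_rpow_of_exponent_le hX1 ?_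
        rw [hc]; linarith

end Pool.Agent.SGap
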