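import Mathlib
import Pool.Agent.SGap.Upper

set_option autoImplicit false

namespace Pool.Agent.SGap

open Finset Filter Topology

/-- Residue class prescribed by an assignment of primes to positions. -/
theorem crt_class (P R : Finset ℕ) (hP : ∀ p ∈ P, p.Prime) (hR : ∀ p ∈ R, p.Prime)
    (hPR : Disjoint P R) (pos : ℕ → ℕ) :
    ∃ N0 : ℕ, (∀ p ∈ P, p ^ 2 ∣ N0) ∧ ∀ p ∈ R, p ^ 2 ∣ N0 + pos p := by
  classical
  have hs : ∀ p ∈ P ∪ R, (fun p : ℕ => p ^ 2) p ≠ 0 := by
    intro p hp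
    rcases Finset.mem_union.1 hp with h | h
    · exact pow_ne_zero 2 (hP p h).ne_zero
    · exact pow_ne_zero 2 (hR p h).ne_zero
  have hprime : ∀ p ∈ P ∪ R, p.Prime := by
    intro p hp
    rcases Finset.mem_union.1 hp with h | h
    · exact hP p h
    · exact hR p h
  have pp : Set.Pairwise (↑(P ∪ R) : Set ℕ) (Function.onFun Nat.Coprime (fun p : ℕ => p ^ 2)) := by
    intro p hp q hq hpq
    exact Nat.Coprime.pow 2 2 ((Nat.coprime_primes (hprime p hp) (hprime q hq)).2 hpq)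
  obtain ⟨N0, hN0⟩ := Nat.chineseRemainderOfFinset
    (fun p => if p ∈ P then 0 else pos p * (p ^ 2 - 1)) (fun p => p ^ 2) (P ∪ R) hs pp
  refine ⟨N0, ?_, ?_⟩
  · intro p hp
    have := hN0 p (Finset.mem_union_left _ hp)
    simp only [hp, if_true] at this
    exact (Nat.modEq_zero_iff_dvd).1 this
  · intro p hp
    have hnp : p ∉ P := fun h => (Finset.disjoint_left.1 hPR h hp)
    have := hN0 p (Finset.mem_union_right _ hp)
    simp only [hnp, if_false] at this
    have h2 : N0 + pos p ≡ pos p * (p ^ 2 - 1) + pos p [MOD p ^ 2] := this.add_right _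
    have h3 : pos p * (p ^ 2 - 1) + pos p = pos p * p ^ 2 := by
      have h1 : 1 ≤ p ^ 2 := Nat.one_le_pow _ _ (hR p hp).pos
      have : pos p * (p ^ 2 - 1) + pos p = pos p * ((p ^ 2 - 1) + 1) := by ring
      rw [this, Nat.sub_add_cancel h1]
    rw [h3] at h2
    exact (Nat.modEq_zero_iff_dvd).1 (h2.trans
      ((Nat.modEq_zero_iff_dvd).2 (dvd_mul_left _ _)))

/-- Many killed windows from the assignments of primes to the surviving positions. -/
theorem many_windows (P R : Finset ℕ) (h Y L : ℕ) (hP : ∀ p ∈ P, p.Prime) (hR : ∀ p ∈ R, p.Prime)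
    (hPR : Disjoint P R) (hbig : ∀ p ∈ R, h < p ^ 2) (hcard : (surv P 0 h).card = R.card)
    (𝒩 : Finset ℕ) (h𝒩 : ∀ N ∈ Ioc Y (Y + L), W h N → N ∈ 𝒩) :
    (R.card.factorial : ℝ) * ((L : ℝ) / (QP (P ∪ R) : ℕ) - 1) ≤ (𝒩.card : ℝ) := by
  classical
  set M : ℕ := QP (P ∪ R) with hM
  have hprime : ∀ p ∈ P ∪ R, p.Prime := by
    intro p hp
    rcases Finset.mem_union.1 hp with h | h
    · exact hP p h
    · exact hR p h
  have hMpos : 0 < M := QP_pos _ hprime
  have hch : ∀ e : R ≃ surv P 0 h, ∃ N0 : ℕ, (∀ p ∈ P, p ^ 2 ∣ N0) ∧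
      ∀ p (hp : p ∈ R), p ^ 2 ∣ N0 + (e ⟨p, hp⟩ : ℕ) := by
    intro e
    obtain ⟨N0, h1, h2⟩ := crt_class P R hP hR hPR
      (fun p => if hp : p ∈ R then (e ⟨p, hp⟩ : ℕ) else 0)
    refine ⟨N0, h1, fun p hp => ?_⟩
    have := h2 p hp
    simpa [hp] using this
  choose N0 hN0 hN0' using hch
  let F : (R ≃ surv P 0 h) → Finset ℕ := fun e =>
    (Ioc Y (Y + L)).filter (fun x => x ≡ N0 e [MOD M])
  have hdvd : ∀ p ∈ P ∪ R, p ^ 2 ∣ M := fun p hp => Finset.dvd_prod_of_mem _ hp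
  have hF1 : ∀ e, ∀ N ∈ F e, (∀ p ∈ P, p ^ 2 ∣ N) ∧
      ∀ p (hp : p ∈ R), p ^ 2 ∣ N + (e ⟨p, hp⟩ : ℕ) := by
    intro e N hN
    have hmod : N ≡ N0 e [MOD M] := (Finset.mem_filter.1 hN).2
    constructor
    · intro p hp
      have h1 : N ≡ N0 e [MOD p ^ 2] := hmod.of_dvd (hdvd p (Finset.mem_union_left _ hp))
      exact (Nat.modEq_zero_iff_dvd).1 (h1.trans ((Nat.modEq_zero_iff_dvd).2 (hN0 e p hp)))
    · intro p hp
      have h1 : N ≡ N0 e [MOD p ^ 2] := hmod.of_dvd (hdvd p (Finset.mem_union_right _ hp))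
      have h2 := h1.add_right (e ⟨p, hp⟩ : ℕ)
      exact (Nat.modEq_zero_iff_dvd).1 (h2.trans ((Nat.modEq_zero_iff_dvd).2 (hN0' e p hp)))
  have hFW : ∀ e, ∀ N ∈ F e, W h N := by
    intro e N hN a ha hsq
    obtain ⟨h1, h2⟩ := hF1 e N hN
    rw [Nat.squarefree_iff_prime_squarefree] at hsq
    by_cases hs : a ∈ surv P 0 h
    · set p := e.symm ⟨a, hs⟩ with hp
      have h3 := h2 p.1 p.2
      have h4 : (e ⟨p.1, p.2⟩ : ℕ) = a := by
        have : e p = ⟨a, hs⟩ := by rw [hp, Equiv.apply_symm_apply]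
        have h5 := congrArg Subtype.val this
        simpa using h5
      rw [h4, pow_two] at h3
      exact hsq p.1 (hR p.1 p.2) h3
    · have : ¬ Good P (0 + a) := by
        intro hg
        exact hs (Finset.mem_filter.2 ⟨ha, hg⟩)
      unfold Good at this
      push Not at this
      obtain ⟨p, hp, hpa⟩ := this
      rw [zero_add] at hpa
      have h3 : p ^ 2 ∣ N + a := dvd_add (h1 p hp) hpa
      rw [pow_two] at h3
      exact hsq p (hP p hp) h3
  have hdisj : Set.PairwiseDisjoint (↑(Finset.univ : Finset (R ≃ surv P 0 h)) : Set _) F := by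
    intro e _ e' _ hee
    rw [Function.onFun, Finset.disjoint_left]
    intro N hN hN'
    apply hee
    ext ⟨p, hp⟩
    have h1 := (hF1 e N hN).2 p hp
    have h2 := (hF1 e' N hN').2 p hp
    have ha := (Finset.mem_Icc.1 (Finset.mem_filter.1 (e ⟨p, hp⟩).2).1)
    have hb := (Finset.mem_Icc.1 (Finset.mem_filter.1 (e' ⟨p, hp⟩).2).1)
    have hlt := hbig p hp
    set x : ℕ := (e ⟨p, hp⟩ : ℕ) with hx
    set y : ℕ := (e' ⟨p, hp⟩ : ℕ) with hy
    show x = y
    rcases lt_trichotomy x y with h3 | h3 | h3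
    · have h4 := Nat.dvd_sub h2 h1
      have h5 : (N + y) - (N + x) = y - x := by omega
      rw [h5] at h4
      have := Nat.le_of_dvd (by omega) h4
      omega
    · exact h3
    · have h4 := Nat.dvd_sub h1 h2
      have h5 : (N + x) - (N + y) = x - y := by omega
      rw [h5] at h4
      have := Nat.le_of_dvd (by omega) h4
      omega
  have hcardF : ∀ e, (L : ℝ) / (M : ℕ) - 1 ≤ ((F e).card : ℝ) := fun e =>
    (modEq_card Y L M (N0 e) hMpos).1
  have hsub : Finset.univ.biUnion F ⊆ 𝒩 := by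
    intro N hN
    rw [Finset.mem_biUnion] at hN
    obtain ⟨e, _, he⟩ := hN
    exact h𝒩 N (Finset.mem_filter.1 he).1 (hFW e N he)
  have hcount : Fintype.card (R ≃ surv P 0 h) = R.card.factorial := by
    have e0 : Nonempty (R ≃ surv P 0 h) := by
      rw [← Fintype.card_eq]
      simp [hcard]
    obtain ⟨e0⟩ := e0
    rw [Fintype.card_equiv e0]
    simp
  calc (R.card.factorial : ℝ) * ((L : ℝ) / (M : ℕ) - 1)
      = ∑ _e : (R ≃ surv P 0 h), ((L : ℝ) / (M : ℕ) - 1) := by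
        rw [Finset.sum_const, Finset.card_univ, hcount, nsmul_eq_mul]
    _ ≤ ∑ e : (R ≃ surv P 0 h), ((F e).card : ℝ) := Finset.sum_le_sum fun e _ => hcardF e
    _ = ((Finset.univ.biUnion F).card : ℝ) := by
        rw [Finset.card_biUnion hdisj]
        push_cast
        rfl
    _ ≤ (𝒩.card : ℝ) := by exact_mod_cast Finset.card_le_card hsub

/-- Enough primes between `√h` and `h ^ (1 + η)`. -/
theorem enough_primes (η : ℝ) (hη : 0 < η) (y : ℕ) : ∃ h0 : ℕ, ∀ h : ℕ, h0 ≤ h →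
    ∃ R : Finset ℕ, h ≤ R.card ∧ ∀ p ∈ R, p.Prime ∧ y < p ∧ h < p ^ 2 ∧ (p : ℝ) ≤ (h : ℝ) ^ (1 + η) := by
  classical
  -- eventual inequality
  have hmain : ∀ᶠ h : ℕ in atTop, ((2 * h + y + 2 : ℕ) : ℝ) *
      Real.log (⌊(h : ℝ) ^ (1 + η)⌋₊ : ℝ) ≤
      (⌊(h : ℝ) ^ (1 + η)⌋₊ : ℝ) * Real.log 2 - Real.log ((⌊(h : ℝ) ^ (1 + η)⌋₊ : ℝ) + 1) := by
    have h1 : Tendsto (fun x : ℝ => Real.log x / x ^ (η)) atTop (𝓝 0) :=
      (isLittleO_log_rpow_atTop hη).tendsto_div_nhds_zero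
    have h2 := h1.comp tendsto_natCast_atTop_atTop
    have hlog2 : 0 < Real.log 2 := Real.log_pos (by norm_num)
    have hc : 0 < Real.log 2 / (4 * ((y : ℝ) + 6) * (1 + η)) := by positivity
    have h3 := h2.eventually (gt_mem_nhds hc)
    filter_upwards [h3, eventually_ge_atTop 2, eventually_ge_atTop (y + 2)] with h hh h2' hy
    simp only [Function.comp] at hh
    have hpos : (0 : ℝ) < h := by exact_mod_cast (by omega : 0 < h)
    have hh1 : (1 : ℝ) ≤ h := by exact_mod_cast (by omega : 1 ≤ h)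
    have hh2 : (2 : ℝ) ≤ h := by exact_mod_cast h2'
    set x : ℝ := (h : ℝ) ^ (1 + η) with hx
    have hxh : (h : ℝ) ≤ x := by
      have := Real.rpow_le_rpow_of_exponent_le hh1 (by linarith : (1 : ℝ) ≤ 1 + η)
      rwa [Real.rpow_one] at this
    have hx2 : 2 ≤ x := le_trans hh2 hxh
    set n : ℕ := ⌊x⌋₊ with hn
    have hn1 : (n : ℝ) ≤ x := Nat.floor_le (by linarith)
    have hn2 : x < n + 1 := Nat.lt_floor_add_one _
    have hn3 : x / 2 ≤ n := by linarith
    have hnpos : (0 : ℝ) < n := by linarith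
    have hηp : (0 : ℝ) < (h : ℝ) ^ η := Real.rpow_pos_of_pos hpos _
    have hlogh : 0 ≤ Real.log h := Real.log_nonneg hh1
    have hlogn : Real.log n ≤ (1 + η) * Real.log h := by
      have := Real.log_le_log hnpos hn1
      rwa [hx, Real.log_rpow hpos] at this
    have hlogn1 : Real.log ((n : ℝ) + 1) ≤ 2 * ((1 + η) * Real.log h) := by
      have h5 : (n : ℝ) + 1 ≤ x ^ 2 := by nlinarith
      have := Real.log_le_log (by linarith) h5
      rw [Real.log_pow, hx, Real.log_rpow hpos] at this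
      push_cast at this
      exact this
    rw [div_lt_iff₀ hηp] at hh
    have hxx : x = h * (h : ℝ) ^ η := by rw [hx, Real.rpow_add hpos, Real.rpow_one]
    -- (2h + y + 2) log n + log (n+1) ≤ (y + 6) h (1+η) log h ≤ x log 2 / 4
    have h6 : ((2 * h + y + 2 : ℕ) : ℝ) + 2 ≤ ((y : ℝ) + 6) * h := by
      push_cast
      have : (0 : ℝ) ≤ y := Nat.cast_nonneg _
      nlinarith
    have h7 : ((2 * h + y + 2 : ℕ) : ℝ) * Real.log n + Real.log ((n : ℝ) + 1) ≤
        (((2 * h + y + 2 : ℕ) : ℝ) + 2) * ((1 + η) * Real.log h) := by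
      have h8 : ((2 * h + y + 2 : ℕ) : ℝ) * Real.log n ≤
          ((2 * h + y + 2 : ℕ) : ℝ) * ((1 + η) * Real.log h) :=
        mul_le_mul_of_nonneg_left hlogn (Nat.cast_nonneg _)
      linarith
    have h9 : (((2 * h + y + 2 : ℕ) : ℝ) + 2) * ((1 + η) * Real.log h) ≤
        (((y : ℝ) + 6) * h) * ((1 + η) * Real.log h) :=
      mul_le_mul_of_nonneg_right h6 (by positivity)
    have h10 : (((y : ℝ) + 6) * h) * ((1 + η) * Real.log h) ≤ x * Real.log 2 / 4 := by
      have h11 : (((y : ℝ) + 6) * h) * ((1 + η) * Real.log h) ≤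
          (((y : ℝ) + 6) * h) * ((1 + η) * (Real.log 2 / (4 * ((y : ℝ) + 6) * (1 + η)) * (h : ℝ) ^ η)) := by
        refine mul_le_mul_of_nonneg_left ?_ (by positivity)
        exact mul_le_mul_of_nonneg_left hh.le (by linarith)
      refine h11.trans (le_of_eq ?_)
      rw [hxx]
      field_simp
    nlinarith
  obtain ⟨h0, hh0⟩ := eventually_atTop.1 (hmain.and (eventually_ge_atTop 2))
  refine ⟨h0, fun h hh => ?_⟩
  obtain ⟨h1, h2⟩ := hh0 h hh
  set n : ℕ := ⌊(h : ℝ) ^ (1 + η)⌋₊ with hn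
  have hpos : (0 : ℝ) < h := by exact_mod_cast (by omega : 0 < h)
  have hh1 : (1 : ℝ) ≤ h := by exact_mod_cast (by omega : 1 ≤ h)
  have hnh : h ≤ n := by
    rw [hn]
    refine Nat.le_floor ?_
    have := Real.rpow_le_rpow_of_exponent_le hh1 (by linarith : (1 : ℝ) ≤ 1 + η)
    rwa [Real.rpow_one] at this
  have hlogn : 0 < Real.log n := Real.log_pos (by exact_mod_cast (by omega : 1 < n))
  have h3 := Chebyshev.psi_ge n
  have h4 := Chebyshev.psi_le_primeCounting_mul_log n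
  have h5 : ((2 * h + y + 2 : ℕ) : ℝ) ≤ (Nat.primeCounting n : ℝ) := by
    have : ((2 * h + y + 2 : ℕ) : ℝ) * Real.log n ≤ (Nat.primeCounting n : ℝ) * Real.log n := by
      linarith
    exact le_of_mul_le_mul_right this hlogn
  have h5' : 2 * h + y + 2 ≤ Nat.primeCounting n := by exact_mod_cast h5
  rw [← Nat.primesLE_card_eq_primeCounting] at h5'
  refine ⟨(Nat.primesLE n).filter (fun p => y < p ∧ h < p ^ 2), ?_, ?_⟩
  · have h6 : Nat.primesLE n ⊆ (Nat.primesLE n).filter (fun p => y < p ∧ h < p ^ 2) ∪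
        Finset.range (y + h + 1) := by
      intro p hp
      rw [Finset.mem_union, Finset.mem_filter, Finset.mem_range]
      by_cases hc : y < p ∧ h < p ^ 2
      · exact Or.inl ⟨hp, hc⟩
      · right
        rw [not_and_or] at hc
        rcases hc with hc | hc
        · omega
        · have : p ≤ p ^ 2 := Nat.le_self_pow (by norm_num) p
          omega
    have h7 := Finset.card_le_card h6
    have h8 := Finset.card_union_le ((Nat.primesLE n).filter (fun p => y < p ∧ h < p ^ 2))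
      (Finset.range (y + h + 1))
    rw [Finset.card_range] at h8
    omega
  · intro p hp
    rw [Finset.mem_filter, Nat.mem_primesLE] at hp
    refine ⟨hp.1.2, hp.2.1, hp.2.2, ?_⟩
    have : (p : ℝ) ≤ n := by exact_mod_cast hp.1.1
    refine this.trans ?_
    exact Nat.floor_le (by positivity)

end Pool.Agent.SGap
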