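import Mathlib
import Pool.Agent.SGap.Lower1

set_option autoImplicit false

namespace Pool.Agent.SGap

open Finset Filter Topology

/-- Lower bound for the number of killed windows in the upper half of `[1, X]`. -/
theorem windows_lower (lam ε : ℝ) (hlam : 0 < lam) (hlam2 : lam < 1 / 2) (hε : 0 < ε) :
    ∃ X0 : ℕ, ∀ X : ℕ, X0 ≤ X → ∀ 𝒩 : Finset ℕ,
      (∀ N ∈ Ioc ((X - 1) / 2) ((X - 1) / 2 + ((X - 1) / 2 + 1)),
        W (⌊lam * (Real.pi ^ 2 / 6) * ell X⌋₊ + 1) N → N ∈ 𝒩) →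
      (X : ℝ) ^ (1 - lam - ε) ≤ (𝒩.card : ℝ) := by
  classical
  set pi2 : ℝ := Real.pi ^ 2 / 6 with hpi2
  have hpi : 0 < pi2 := by positivity
  set δ3 : ℝ := min (ε / 4) ((1 - 2 * lam) / 2) with hδ3
  have hδ30 : 0 < δ3 := lt_min (by linarith) (by linarith)
  have hδ3a : δ3 ≤ ε / 4 := min_le_left _ _
  have hδ3b : δ3 ≤ (1 - 2 * lam) / 2 := min_le_right _ _
  set δ2 : ℝ := min (min (δ3 / 10) (ε / 8)) (min (lam / 2) 1) with hδ2
  have hδ20 : 0 < δ2 := lt_min (lt_min (by linarith) (by linarith)) (lt_min (by linarith) one_pos)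
  have hδ2a : δ2 ≤ δ3 / 10 := (min_le_left _ _).trans (min_le_left _ _)
  have hδ2b : δ2 ≤ ε / 8 := (min_le_left _ _).trans (min_le_right _ _)
  have hδ2c : δ2 ≤ lam / 2 := (min_le_right _ _).trans (min_le_left _ _)
  have hδ2d : δ2 ≤ 1 := (min_le_right _ _).trans (min_le_right _ _)
  set δ1 : ℝ := δ2 / (2 * (lam * pi2)) with hδ1
  have hδ10 : 0 < δ1 := by rw [hδ1]; positivity
  have hδ1e : δ1 * (lam * pi2) = δ2 / 2 := by rw [hδ1]; field_simp
  obtain ⟨y0, hy0⟩ := dens_le_eventually δ1 hδ10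
  set P : Finset ℕ := Nat.primesBelow y0 with hPdef
  have hP : ∀ p ∈ P, p.Prime := fun p hp => (Nat.mem_primesBelow.1 hp).2
  have hdens : dens P ≤ 6 / Real.pi ^ 2 + δ1 := hy0 y0 le_rfl
  have hdens' : 6 / Real.pi ^ 2 ≤ dens P := dens_ge y0
  set Q : ℕ := QP P with hQ
  have hQpos : 0 < Q := QP_pos P hP
  have hQpos' : (0 : ℝ) < Q := by exact_mod_cast hQpos
  obtain ⟨h0, hh0⟩ := enough_primes δ2 hδ20 y0
  have hinv : 6 / Real.pi ^ 2 * pi2 = 1 := by rw [hpi2]; field_simp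
  have hc : 0 < lam * pi2 := by positivity
  set c4 : ℝ := lam - δ2 with hc4
  have hc40 : 0 < c4 := by rw [hc4]; linarith
  have hlow : c4 - δ2 < c4 := by linarith
  -- eventual facts
  have ev1 : ∀ᶠ X : ℕ in atTop, (h0 : ℝ) + 1 ≤ lam * pi2 * ell X :=
    (ell_tendsto.const_mul_atTop hc).eventually (eventually_ge_atTop _)
  have ev2 : ∀ᶠ X : ℕ in atTop, (Q : ℝ) + 6 / Real.pi ^ 2 + δ1 ≤ δ2 / 2 * ell X :=
    (ell_tendsto.const_mul_atTop (by linarith : (0:ℝ) < δ2 / 2)).eventually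
      (eventually_ge_atTop _)
  have ev3 : ∀ᶠ X : ℕ in atTop, Real.exp 1 ≤ c4 * ell X :=
    (ell_tendsto.const_mul_atTop hc40).eventually (eventually_ge_atTop _)
  have ev4 : ∀ᶠ X : ℕ in atTop, c4 - δ2 <
      (c4 * ell X) * (Real.log (c4 * ell X) - 1) / Real.log X :=
    (ell_ent c4 hc40).eventually (lt_mem_nhds hlow)
  have ev5 : ∀ᶠ X : ℕ in atTop, (0 : ℝ) < Real.log X :=
    log_nat_tendsto.eventually (eventually_gt_atTop 0)
  have ev6 : ∀ᶠ X : ℕ in atTop, (0 : ℝ) < Real.log (Real.log X) :=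
    loglog_nat_tendsto.eventually (eventually_gt_atTop 0)
  have ev7 : ∀ᶠ X : ℕ in atTop, Real.log Q ≤ δ3 / 2 * Real.log X :=
    (log_nat_tendsto.const_mul_atTop (by linarith : (0 : ℝ) < δ3 / 2)).eventually
      (eventually_ge_atTop _)
  have ev8 : ∀ᶠ X : ℕ in atTop, (lam * pi2) * (ell X / Real.log X) < 1 / 2 := by
    have := ell_div_log.const_mul (lam * pi2)
    rw [mul_zero] at this
    exact this.eventually (gt_mem_nhds (by norm_num))
  have ev9 : ∀ᶠ X : ℕ in atTop, (2 : ℝ) ≤ Real.log X :=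
    log_nat_tendsto.eventually (eventually_ge_atTop _)
  have ev10 : ∀ᶠ X : ℕ in atTop, (4 : ℝ) ≤ (X : ℝ) ^ (1 - 2 * lam - δ3) :=
    ((tendsto_rpow_atTop (by linarith)).comp tendsto_natCast_atTop_atTop).eventually
      (eventually_ge_atTop _)
  have ev11 : ∀ᶠ X : ℕ in atTop, (4 : ℝ) ≤ (X : ℝ) ^ (ε / 2) :=
    ((tendsto_rpow_atTop (by linarith)).comp tendsto_natCast_atTop_atTop).eventually
      (eventually_ge_atTop _)
  have ev12 : ∀ᶠ X : ℕ in atTop, (4 : ℕ) ≤ X := eventually_ge_atTop 4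
  obtain ⟨X0, hX0⟩ := eventually_atTop.1 (ev1.and (ev2.and (ev3.and (ev4.and (ev5.and (ev6.and
    (ev7.and (ev8.and (ev9.and (ev10.and (ev11.and ev12)))))))))))
  refine ⟨X0, fun X hX 𝒩 h𝒩 => ?_⟩
  obtain ⟨e1, e2, e3, e4, e5, e6, e7, e8, e9, e10, e11, e12⟩ := hX0 X hX
  have hXpos : (0 : ℝ) < X := by exact_mod_cast (by omega : 0 < X)
  have hX1 : (1 : ℝ) ≤ X := by exact_mod_cast (by omega : 1 ≤ X)
  set l : ℝ := ell X with hl'
  have hl0 : 0 < l := by
    have : 0 < c4 * l := lt_of_lt_of_le (Real.exp_pos 1) e3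
    exact pos_of_mul_pos_right this hc40.le
  have hlval : l * Real.log (Real.log X) = Real.log X := by
    rw [hl']; unfold ell; field_simp
  set h : ℕ := ⌊lam * pi2 * l⌋₊ + 1 with hh
  have hh1 : (h : ℝ) ≤ lam * pi2 * l + 1 := by
    rw [hh]; push_cast
    have := Nat.floor_le (show 0 ≤ lam * pi2 * l by positivity)
    linarith
  have hh2 : lam * pi2 * l < h := by
    rw [hh]; push_cast
    exact Nat.lt_floor_add_one _
  have hhpos : (0 : ℝ) < h := lt_trans (by positivity) hh2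
  have hh0' : h0 ≤ h := by
    have : (h0 : ℝ) < h := by linarith
    exact_mod_cast this.le
  have hhlog : (h : ℝ) ≤ Real.log X := by
    have : lam * pi2 * (l / Real.log X) * Real.log X ≤ 1 / 2 * Real.log X :=
      mul_le_mul_of_nonneg_right e8.le e5.le
    have e : lam * pi2 * (l / Real.log X) * Real.log X = lam * pi2 * l := by
      field_simp
    linarith
  have hloghh : Real.log h ≤ Real.log (Real.log X) := Real.log_le_log hhpos hhlog
  obtain ⟨R0, hR0card, hR0⟩ := hh0 h hh0'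
  have hSle : (surv P 0 h).card ≤ R0.card := by
    refine le_trans ?_ hR0card
    refine le_trans (Finset.card_le_card (Finset.filter_subset _ _)) ?_
    rw [Nat.card_Icc]; omega
  obtain ⟨R, hRsub, hRcard⟩ := Finset.exists_subset_card_eq hSle
  have hR : ∀ p ∈ R, p.Prime := fun p hp => (hR0 p (hRsub hp)).1
  have hPR : Disjoint P R := by
    rw [Finset.disjoint_left]
    intro p hp hp'
    have h1 := (Nat.mem_primesBelow.1 hp).1
    have h2 := (hR0 p (hRsub hp')).2.1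
    omega
  set S : ℕ := R.card with hS
  have hSreal : (S : ℝ) = ((surv P 0 h).card : ℝ) := by rw [hRcard]
  obtain ⟨hs1, hs2⟩ := surv_real P hP 0 h
  rw [← hSreal] at hs1 hs2
  -- upper bound for `S`
  have hSup : (S : ℝ) ≤ (lam + δ2) * l := by
    have h1 : dens P * h ≤ (6 / Real.pi ^ 2 + δ1) * (lam * pi2 * l + 1) :=
      mul_le_mul hdens hh1 hhpos.le (by positivity)
    have h2 : (6 / Real.pi ^ 2 + δ1) * (lam * pi2 * l + 1) =
        (lam * (6 / Real.pi ^ 2 * pi2) + δ1 * (lam * pi2)) * l + (6 / Real.pi ^ 2 + δ1) := by ring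
    rw [hinv, hδ1e] at h2
    linarith
  have hSlo : c4 * l ≤ (S : ℝ) := by
    have h1 : 6 / Real.pi ^ 2 * (lam * pi2 * l) ≤ dens P * h :=
      mul_le_mul hdens' hh2.le (by positivity) (le_trans (by positivity) hdens')
    have h2 : 6 / Real.pi ^ 2 * (lam * pi2 * l) = lam * (6 / Real.pi ^ 2 * pi2) * l := by ring
    rw [h2, hinv] at h1
    have h3 : (Q : ℝ) ≤ δ2 / 2 * l := by
      have : (0 : ℝ) ≤ 6 / Real.pi ^ 2 + δ1 := by positivity
      linarith
    rw [hc4]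
    nlinarith
  have hSpos : 0 < S := by
    have : (0 : ℝ) < S := lt_of_lt_of_le (by positivity) hSlo
    exact_mod_cast this
  -- factorial
  have hfac : (X : ℝ) ^ (c4 - δ2) ≤ (S.factorial : ℝ) := by
    have hf : (0 : ℝ) < (S.factorial : ℝ) := by exact_mod_cast S.factorial_pos
    rw [← Real.log_le_log_iff (by positivity) hf, Real.log_rpow hXpos]
    refine le_trans ?_ (log_factorial_ge S hSpos)
    refine le_trans ?_ (ent_mono e3 hSlo)
    rw [lt_div_iff₀ e5] at e4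
    exact e4.le
  -- the modulus
  set M : ℕ := QP (P ∪ R) with hM
  have hMprod : (M : ℝ) = Q * ∏ p ∈ R, (p : ℝ) ^ 2 := by
    rw [hM, hQ]
    unfold QP
    rw [Finset.prod_union hPR]
    push_cast
    rfl
  have hMpos : (0 : ℝ) < M := by
    rw [hMprod]
    refine mul_pos hQpos' (Finset.prod_pos fun p hp => ?_)
    have : (0 : ℝ) < p := by exact_mod_cast (hR p hp).pos
    positivity
  have hMle : (M : ℝ) ≤ (X : ℝ) ^ (2 * lam + δ3) := by
    rw [← Real.log_le_log_iff hMpos (by positivity), Real.log_rpow hXpos, hMprod,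
      Real.log_mul hQpos'.ne' (by
        refine Finset.prod_ne_zero_iff.2 fun p hp => ?_
        have : (p : ℝ) ≠ 0 := by exact_mod_cast (hR p hp).ne_zero
        positivity),
      Real.log_prod (by
        intro p hp
        have : (p : ℝ) ≠ 0 := by exact_mod_cast (hR p hp).ne_zero
        positivity)]
    have h1 : ∑ p ∈ R, Real.log ((p : ℝ) ^ 2) ≤ ∑ _p ∈ R, 2 * ((1 + δ2) * Real.log h) := by
      refine Finset.sum_le_sum fun p hp => ?_
      rw [Real.log_pow]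
      push_cast
      have h2 : (p : ℝ) ≤ (h : ℝ) ^ (1 + δ2) := (hR0 p (hRsub hp)).2.2.2
      have hp0 : (0 : ℝ) < p := by exact_mod_cast (hR p hp).pos
      have h3 := Real.log_le_log hp0 h2
      rw [Real.log_rpow hhpos] at h3
      linarith
    rw [Finset.sum_const, nsmul_eq_mul, ← hS] at h1
    have h4 : (S : ℝ) * (2 * ((1 + δ2) * Real.log h)) ≤
        ((lam + δ2) * l) * (2 * ((1 + δ2) * Real.log (Real.log X))) := by
      refine mul_le_mul hSup ?_ ?_ (by positivity)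
      · refine mul_le_mul_of_nonneg_left ?_ (by norm_num)
        exact mul_le_mul_of_nonneg_left hloghh (by linarith)
      · have : 0 ≤ Real.log h := by
          refine Real.log_nonneg ?_
          have : 1 ≤ h := by omega
          exact_mod_cast this
        positivity
    have h5 : ((lam + δ2) * l) * (2 * ((1 + δ2) * Real.log (Real.log X))) =
        (2 * (lam + δ2) * (1 + δ2)) * Real.log X := by
      calc ((lam + δ2) * l) * (2 * ((1 + δ2) * Real.log (Real.log X)))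
          = (2 * (lam + δ2) * (1 + δ2)) * (l * Real.log (Real.log X)) := by ring
        _ = _ := by rw [hlval]
    have h6 : 2 * (lam + δ2) * (1 + δ2) ≤ 2 * lam + 5 * δ2 := by nlinarith
    have h7 : (2 * (lam + δ2) * (1 + δ2)) * Real.log X ≤ (2 * lam + 5 * δ2) * Real.log X :=
      mul_le_mul_of_nonneg_right h6 e5.le
    have h8 : 5 * δ2 * Real.log X ≤ δ3 / 2 * Real.log X :=
      mul_le_mul_of_nonneg_right (by linarith) e5.le
    linarith
  have hwin := many_windows P R h ((X - 1) / 2) ((X - 1) / 2 + 1) hP hR hPR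
    (fun p hp => (hR0 p (hRsub hp)).2.2.1) hRcard.symm 𝒩 h𝒩
  rw [← hM, ← hS] at hwin
  refine le_trans ?_ hwin
  -- final computation
  have hL : (X : ℝ) / 2 ≤ (((X - 1) / 2 + 1 : ℕ) : ℝ) := by
    have : X ≤ 2 * ((X - 1) / 2 + 1) := by omega
    have : (X : ℝ) ≤ 2 * (((X - 1) / 2 + 1 : ℕ) : ℝ) := by exact_mod_cast this
    linarith
  have h1 : (X : ℝ) ^ (1 - 2 * lam - δ3) / 2 ≤ (((X - 1) / 2 + 1 : ℕ) : ℝ) / M := by
    rw [le_div_iff₀ hMpos]
    have h2 : (X : ℝ) ^ (1 - 2 * lam - δ3) / 2 * M ≤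
        (X : ℝ) ^ (1 - 2 * lam - δ3) / 2 * (X : ℝ) ^ (2 * lam + δ3) :=
      mul_le_mul_of_nonneg_left hMle (by positivity)
    have h3 : (X : ℝ) ^ (1 - 2 * lam - δ3) / 2 * (X : ℝ) ^ (2 * lam + δ3) = X / 2 := by
      have : (X : ℝ) ^ (1 - 2 * lam - δ3) * (X : ℝ) ^ (2 * lam + δ3) = X := by
        rw [← Real.rpow_add hXpos]
        have : 1 - 2 * lam - δ3 + (2 * lam + δ3) = 1 := by ring
        rw [this, Real.rpow_one]
      linarith
    linarith
  have h2 : (X : ℝ) ^ (1 - 2 * lam - δ3) / 4 ≤ (((X - 1) / 2 + 1 : ℕ) : ℝ) / M - 1 := by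
    linarith
  have h3 : (X : ℝ) ^ (c4 - δ2) * ((X : ℝ) ^ (1 - 2 * lam - δ3) / 4) ≤
      (S.factorial : ℝ) * ((((X - 1) / 2 + 1 : ℕ) : ℝ) / M - 1) :=
    mul_le_mul hfac h2 (by positivity) (by positivity)
  refine le_trans ?_ h3
  have h4 : (X : ℝ) ^ (c4 - δ2) * ((X : ℝ) ^ (1 - 2 * lam - δ3) / 4) =
      (X : ℝ) ^ (c4 - δ2 + (1 - 2 * lam - δ3)) / 4 := by
    rw [Real.rpow_add hXpos]; ring
  rw [h4, le_div_iff₀ (by norm_num : (0:ℝ) < 4)]
  calc (X : ℝ) ^ (1 - lam - ε) * 4 ≤ (X : ℝ) ^ (1 - lam - ε) * (X : ℝ) ^ (ε / 2) :=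
        mul_le_mul_of_nonneg_left e11 (by positivity)
    _ = (X : ℝ) ^ (1 - lam - ε + ε / 2) := (Real.rpow_add hXpos _ _).symm
    _ ≤ (X : ℝ) ^ (c4 - δ2 + (1 - 2 * lam - δ3)) := by
        refine Real.rpow_le_rpow_of_exponent_le hX1 ?_
        rw [hc4]
        linarith

end Pool.Agent.SGap
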