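import Mathlib
import Pool.Agent.SGap.Lower2

set_option autoImplicit false

namespace Pool.Agent.SGap

open Finset Filter Topology

/-- The index of the last squarefree number `≤ N`. -/
noncomputable def idx (N : ℕ) : ℕ := by
  classical exact Nat.count Squarefree (N + 1) - 1

theorem idx_spec (N : ℕ) (hN : 1 ≤ N) : sq (idx N) ≤ N ∧ N < sq (idx N + 1) := by
  classical
  have h1 : 1 ≤ Nat.count (Squarefree : ℕ → Prop) (N + 1) := by
    have h2 : Nat.count (Squarefree : ℕ → Prop) 2 ≤ Nat.count Squarefree (N + 1) :=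
      Nat.count_monotone _ (by omega)
    have h3 : Nat.count (Squarefree : ℕ → Prop) 2 = 1 := by
      rw [Nat.count_succ, Nat.count_succ]
      simp
    omega
  have hidx : idx N = Nat.count (Squarefree : ℕ → Prop) (N + 1) - 1 := by
    unfold idx; congr
  constructor
  · have : sq (idx N) < N + 1 := Nat.nth_lt_of_lt_count (by rw [hidx]; omega)
    omega
  · have : N + 1 ≤ sq (idx N + 1) := by
      have h2 : idx N + 1 = Nat.count (Squarefree : ℕ → Prop) (N + 1) := by omega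
      rw [h2]
      exact Nat.le_nth_count inf_sqf (N + 1)
    omega

theorem W_gap {h N : ℕ} (hN : 1 ≤ N) (hW : W h N) : N + h < sq (idx N + 1) := by
  obtain ⟨_, h2⟩ := idx_spec N hN
  by_contra hcon
  push Not at hcon
  have h3 := sq_mem (idx N + 1)
  refine hW (sq (idx N + 1) - N) ?_ ?_
  · rw [Finset.mem_Icc]; omega
  · have : N + (sq (idx N + 1) - N) = sq (idx N + 1) := by omega
    rw [this]; exact h3

theorem not_W_gap {h N : ℕ} (hN : 1 ≤ N) (hW : ¬ W h N) : sq (idx N + 1) ≤ N + h := by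
  unfold W at hW
  push Not at hW
  obtain ⟨a, ha, hsq⟩ := hW
  rw [Finset.mem_Icc] at ha
  by_contra hcon
  push Not at hcon
  obtain ⟨h1, h2⟩ := idx_spec N hN
  exact not_sqf_between (n := idx N) (m := N + a) (by omega) (by omega) hsq

/-- Lower bound for the number of large gaps. -/
theorem lower (lam ε : ℝ) (hlam : 0 < lam) (hlam3 : lam < 1 / 3) (hε : 0 < ε) :
    ∃ X0 : ℕ, ∀ X : ℕ, X0 ≤ X →
      (X : ℝ) ^ (1 - lam - ε) ≤ ((bigSet lam X).ncard : ℝ) := by
  classical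
  set pi2 : ℝ := Real.pi ^ 2 / 6 with hpi2
  have hpi : 0 < pi2 := by positivity
  have hc : 0 < lam * pi2 := by positivity
  -- exponents
  set m : ℝ := min (2 * lam) (1 / 3) with hm
  have hm1 : lam < m := lt_min (by linarith) hlam3
  set κ : ℝ := (lam + m) / 2 with hκ
  have hκ1 : lam < κ := by rw [hκ]; linarith
  have hκm : κ < m := by rw [hκ]; linarith
  have hκ2 : κ < 2 * lam := lt_of_lt_of_le hκm (min_le_left _ _)
  have hκ3 : κ ≤ 1 / 3 := (lt_of_lt_of_le hκm (min_le_right _ _)).le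
  have hκ0 : 0 < κ := by linarith
  set ε1 : ℝ := min ((κ - lam) / 4) (ε / 2) with hε1
  have hε10 : 0 < ε1 := lt_min (by linarith) (by linarith)
  have hε1a : ε1 ≤ (κ - lam) / 4 := min_le_left _ _
  have hε1b : ε1 ≤ ε / 2 := min_le_right _ _
  obtain ⟨X1, hX1⟩ := windows_lower lam ε1 hlam (by linarith) hε10
  obtain ⟨Y1, hY1⟩ := block (2 * lam) κ ε1 hκ0 hκ3 hκ2 hε10
  obtain ⟨Y2, hY2⟩ := eventually_atTop.1
    (log_nat_tendsto.eventually (eventually_ge_atTop (Real.exp 1)))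
  have ev1 : ∀ᶠ X : ℕ in atTop, (2 : ℝ) ≤ (X : ℝ) ^ (κ - lam - 2 * ε1) :=
    ((tendsto_rpow_atTop (by linarith)).comp tendsto_natCast_atTop_atTop).eventually
      (eventually_ge_atTop _)
  have ev2 : ∀ᶠ X : ℕ in atTop, (lam * pi2) * (ell X / Real.log X) < 1 / 2 := by
    have := ell_div_log.const_mul (lam * pi2)
    rw [mul_zero] at this
    exact this.eventually (gt_mem_nhds (by norm_num))
  have ev3 : ∀ᶠ X : ℕ in atTop, (2 : ℝ) ≤ Real.log X :=
    log_nat_tendsto.eventually (eventually_ge_atTop _)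
  have ev4 : ∀ᶠ X : ℕ in atTop, 2 * Real.log X ≤ (X : ℝ) ^ (ε / 2) := by
    have h1 : Tendsto (fun x : ℝ => Real.log x / x ^ (ε / 2)) atTop (𝓝 0) :=
      (isLittleO_log_rpow_atTop (by linarith)).tendsto_div_nhds_zero
    have h2 := (h1.comp tendsto_natCast_atTop_atTop).eventually
      (gt_mem_nhds (by norm_num : (0 : ℝ) < 1 / 2))
    filter_upwards [h2, eventually_ge_atTop 1] with X hX hX1
    have hXpos : (0 : ℝ) < X := by exact_mod_cast hX1
    have hp : (0 : ℝ) < (X : ℝ) ^ (ε / 2) := Real.rpow_pos_of_pos hXpos _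
    simp only [Function.comp] at hX
    rw [div_lt_iff₀ hp] at hX
    linarith
  have ev5 : ∀ᶠ X : ℕ in atTop, (0 : ℝ) < ell X := ell_tendsto.eventually (eventually_gt_atTop 0)
  obtain ⟨X2, hX2⟩ := eventually_atTop.1 (ev1.and (ev2.and (ev3.and (ev4.and ev5))))
  refine ⟨X1 + X2 + 2 * Y1 + 4 * Y2 + 16, fun X hX => ?_⟩
  obtain ⟨e1, e2, e3, e4, e5⟩ := hX2 X (by omega)
  have hXpos : (0 : ℝ) < X := by exact_mod_cast (by omega : 0 < X)
  have hX1' : (1 : ℝ) ≤ X := by exact_mod_cast (by omega : 1 ≤ X)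
  have hlogpos : 0 < Real.log X := by linarith
  set Y : ℕ := (X - 1) / 2 with hY
  have hYX : Y + (Y + 1) ≤ X := by omega
  have hYX' : X ≤ 2 * (Y + 1) := by omega
  have hYY1 : Y1 ≤ Y := by omega
  have hYpos : (0 : ℝ) < Y := by exact_mod_cast (by omega : 0 < Y)
  have hYXr : (Y : ℝ) ≤ X := by exact_mod_cast (by omega : Y ≤ X)
  set h : ℕ := ⌊lam * pi2 * ell X⌋₊ + 1 with hh
  have hh1 : (h : ℝ) ≤ lam * pi2 * ell X + 1 := by
    rw [hh]; push_cast
    have := Nat.floor_le (show 0 ≤ lam * pi2 * ell X by positivity)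
    linarith
  have hh2 : lam * pi2 * ell X < h := by
    rw [hh]; push_cast
    exact Nat.lt_floor_add_one _
  have hhpos : 0 < h := by omega
  have hhlog : (h : ℝ) ≤ Real.log X := by
    have : lam * pi2 * (ell X / Real.log X) * Real.log X ≤ 1 / 2 * Real.log X :=
      mul_le_mul_of_nonneg_right e2.le hlogpos.le
    have e : lam * pi2 * (ell X / Real.log X) * Real.log X = lam * pi2 * ell X := by
      field_simp
    linarith
  -- the two window sets
  set 𝒩1 : Finset ℕ := (Ioc Y (Y + (Y + 1))).filter (fun N => W h N) with h𝒩1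
  set 𝒩2 : Finset ℕ := (Ioc Y (Y + (Y + 1))).filter (fun N => W (2 * h) N) with h𝒩2
  have hb1 : (X : ℝ) ^ (1 - lam - ε1) ≤ (𝒩1.card : ℝ) :=
    hX1 X (by omega) 𝒩1 (fun N hN hW => Finset.mem_filter.2 ⟨hN, hW⟩)
  have hellmono : ell Y ≤ ell X := ell_mono (hY2 Y (by omega)) hYXr hYpos
  have hb2 : (𝒩2.card : ℝ) ≤ (Y : ℝ) ^ (1 - κ + ε1) := by
    refine hY1 Y hYY1 𝒩2 (Finset.filter_subset _ _) ?_
    intro N hN
    refine W_mono ?_ (Finset.mem_filter.1 hN).2
    refine Nat.floor_le_of_le ?_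
    have : lam * pi2 * ell Y ≤ lam * pi2 * ell X := mul_le_mul_of_nonneg_left hellmono hc.le
    have e : 2 * lam * (Real.pi ^ 2 / 6) * ell Y = 2 * (lam * pi2 * ell Y) := by
      rw [hpi2]; ring
    rw [e]
    push_cast
    linarith
  have hb3 : (𝒩2.card : ℝ) ≤ (𝒩1.card : ℝ) / 2 := by
    have h1 : (Y : ℝ) ^ (1 - κ + ε1) ≤ (X : ℝ) ^ (1 - κ + ε1) :=
      Real.rpow_le_rpow hYpos.le hYXr (by linarith)
    have h2 : 2 * (X : ℝ) ^ (1 - κ + ε1) ≤ (X : ℝ) ^ (1 - lam - ε1) := by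
      calc 2 * (X : ℝ) ^ (1 - κ + ε1) ≤ (X : ℝ) ^ (κ - lam - 2 * ε1) * (X : ℝ) ^ (1 - κ + ε1) :=
            mul_le_mul_of_nonneg_right e1 (by positivity)
        _ = (X : ℝ) ^ (κ - lam - 2 * ε1 + (1 - κ + ε1)) := (Real.rpow_add hXpos _ _).symm
        _ = (X : ℝ) ^ (1 - lam - ε1) := by congr 1; ring
    linarith
  have hsub21 : 𝒩2 ⊆ 𝒩1 := by
    intro N hN
    rw [Finset.mem_filter] at hN ⊢
    exact ⟨hN.1, W_mono (by omega) hN.2⟩
  -- the map to indices
  have hmaps : ∀ N ∈ 𝒩1 \ 𝒩2, idx N ∈ (bigSet_finite lam X).toFinset := by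
    intro N hN
    rw [Finset.mem_sdiff, Finset.mem_filter, Finset.mem_filter] at hN
    obtain ⟨⟨hNI, hNW⟩, hN2⟩ := hN
    have hNI' := Finset.mem_Ioc.1 hNI
    have hN1 : 1 ≤ N := by omega
    obtain ⟨h1, h2⟩ := idx_spec N hN1
    have h3 := W_gap hN1 hNW
    rw [Set.Finite.mem_toFinset]
    refine ⟨by omega, ?_⟩
    -- `sq (idx N)` is large
    obtain ⟨q, hq, hq1, hq2⟩ := Nat.exists_prime_lt_and_le_two_mul (N / 2) (by omega)
    have h4 : q ≤ sq (idx N) := by
      refine Nat.le_nth_of_lt_nth_succ ?_ hq.prime.squarefree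
      have : q ≤ N := by omega
      exact lt_of_le_of_lt this h2
    have h5 : Y2 ≤ sq (idx N) := by omega
    have h6 : (0 : ℝ) < (sq (idx N) : ℝ) := by exact_mod_cast (by omega : 0 < sq (idx N))
    have h7 : ell (sq (idx N)) ≤ ell X :=
      ell_mono (hY2 _ h5) (by exact_mod_cast (by omega : sq (idx N) ≤ X)) h6
    unfold Big
    have h8 : lam * pi2 * ell (sq (idx N)) ≤ lam * pi2 * ell X :=
      mul_le_mul_of_nonneg_left h7 hc.le
    have h9 : (h : ℝ) + (sq (idx N) : ℝ) ≤ (sq (idx N + 1) : ℝ) := by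
      exact_mod_cast (by omega : h + sq (idx N) ≤ sq (idx N + 1))
    rw [← hpi2]
    linarith
  have hfib : ∀ n ∈ (bigSet_finite lam X).toFinset,
      (((𝒩1 \ 𝒩2).filter (fun N => idx N = n)).card) ≤ h := by
    intro n _
    have : (𝒩1 \ 𝒩2).filter (fun N => idx N = n) ⊆ Ico (sq (n + 1) - 2 * h) (sq (n + 1) - h) := by
      intro N hN
      rw [Finset.mem_filter, Finset.mem_sdiff, Finset.mem_filter, Finset.mem_filter] at hN
      obtain ⟨⟨⟨hNI, hNW⟩, hN2⟩, hn⟩ := hN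
      have hNI' := Finset.mem_Ioc.1 hNI
      have hN1 : 1 ≤ N := by omega
      have h3 := W_gap hN1 hNW
      have h4 : ¬ W (2 * h) N := fun hW => hN2 ⟨hNI, hW⟩
      have h5 := not_W_gap hN1 h4
      rw [hn] at h3 h5
      rw [Finset.mem_Ico]
      omega
    refine le_trans (Finset.card_le_card this) ?_
    rw [Nat.card_Ico]
    omega
  have hcardle : (𝒩1 \ 𝒩2).card ≤ h * (bigSet_finite lam X).toFinset.card :=
    Finset.card_le_mul_card_image_of_maps_to hmaps h hfib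
  have hcard1 : (𝒩1.card : ℝ) / 2 ≤ ((𝒩1 \ 𝒩2).card : ℝ) := by
    have h1 : 𝒩1.card ≤ (𝒩1 \ 𝒩2).card + 𝒩2.card := by
      have := Finset.le_card_sdiff 𝒩2 𝒩1
      omega
    have h2 : (𝒩1.card : ℝ) ≤ ((𝒩1 \ 𝒩2).card : ℝ) + (𝒩2.card : ℝ) := by exact_mod_cast h1
    linarith
  have hncard : (bigSet lam X).ncard = (bigSet_finite lam X).toFinset.card :=
    Set.ncard_eq_toFinset_card _ _
  have h10 : (X : ℝ) ^ (1 - lam - ε1) / 2 ≤ (h : ℝ) * ((bigSet lam X).ncard : ℝ) := by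
    have : ((𝒩1 \ 𝒩2).card : ℝ) ≤ (h : ℝ) * ((bigSet lam X).ncard : ℝ) := by
      rw [hncard]; exact_mod_cast hcardle
    linarith
  have h11 : (h : ℝ) * ((bigSet lam X).ncard : ℝ) ≤ Real.log X * ((bigSet lam X).ncard : ℝ) :=
    mul_le_mul_of_nonneg_right hhlog (Nat.cast_nonneg _)
  have h12 : (X : ℝ) ^ (1 - lam - ε1) ≤ (2 * Real.log X) * ((bigSet lam X).ncard : ℝ) := by
    linarith
  have h13 : (2 * Real.log X) * ((bigSet lam X).ncard : ℝ) ≤
      (X : ℝ) ^ (ε / 2) * ((bigSet lam X).ncard : ℝ) :=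
    mul_le_mul_of_nonneg_right e4 (Nat.cast_nonneg _)
  have h14 : (X : ℝ) ^ (ε / 2) * (X : ℝ) ^ (1 - lam - ε) ≤ (X : ℝ) ^ (ε / 2) * ((bigSet lam X).ncard : ℝ) := by
    refine le_trans ?_ (le_trans h12 h13)
    rw [← Real.rpow_add hXpos]
    refine Real.rpow_le_rpow_of_exponent_le hX1' ?_
    linarith
  exact le_of_mul_le_mul_left h14 (Real.rpow_pos_of_pos hXpos _)

/-- For `0 < lam < 1/3` the number of large gaps up to `X` is `X ^ (1 - lam + o(1))`. -/
theorem exponent (lam : ℝ) (hlam : 0 < lam) (hlam3 : lam < 1 / 3) :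
    Tendsto (fun X : ℕ => Real.log ((bigSet lam X).ncard : ℝ) / Real.log X) atTop
      (𝓝 (1 - lam)) := by
  rw [Metric.tendsto_atTop]
  intro ε hε
  obtain ⟨X1, hX1⟩ := upper lam (ε / 2) hlam (by linarith)
  obtain ⟨X2, hX2⟩ := lower lam (ε / 2) hlam hlam3 (by linarith)
  have hmin : min lam (1 / 3) = lam := min_eq_left hlam3.le
  refine ⟨X1 + X2 + 3, fun X hX => ?_⟩
  have h1 := hX1 X (by omega)
  have h2 := hX2 X (by omega)
  rw [hmin] at h1
  have hXpos : (0 : ℝ) < X := by exact_mod_cast (by omega : 0 < X)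
  have hlog : 0 < Real.log X := Real.log_pos (by exact_mod_cast (by omega : 1 < X))
  have hc : (0 : ℝ) < ((bigSet lam X).ncard : ℝ) := lt_of_lt_of_le (by positivity) h2
  have h3 := Real.log_le_log hc h1
  have h4 := Real.log_le_log (by positivity) h2
  rw [Real.log_rpow hXpos] at h3 h4
  rw [Real.dist_eq, abs_lt]
  constructor
  · have : 1 - lam - ε / 2 ≤ Real.log ((bigSet lam X).ncard : ℝ) / Real.log X := by
      rw [le_div_iff₀ hlog]; exact h4
    linarith
  · have : Real.log ((bigSet lam X).ncard : ℝ) / Real.log X ≤ 1 - lam + ε / 2 := by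
      rw [div_le_iff₀ hlog]; exact h3
    linarith

end Pool.Agent.SGap
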